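import Pool.Agent.Helper85.LQ.App
import Pool.Agent.Helper8.LQ.CFq
import Pool.Agent.Helper8.LQ.MIXq
import Pool.Agent.Helper8.LQ.FDq
import Pool.Agent.Helper28.NL.Equ

/-!
# Almost primes and residue classes: the final forms

* `rough_inv`, `exc_rough`: integers without small prime factors in invariant sets.
* `linnik`, `exc_linnik`: the least element of an invariant set in a residue class.
* `three_rough`, `three_linnik`, ..: the map `3x + 1`.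
-/

set_option autoImplicit false

namespace Pool.Agent.Helper85.LQ

open Pool.Agent.Helper68.Moeller Pool.Agent.Helper52.Tao Pool.Agent.Helper8 Pool.Agent.Helper8.ND Pool.Agent.Helper8.PW
  Pool.Agent.Helper8.LQ Pool.Agent.Helper28 Pool.Agent.Helper91 Filter Topology

variable {d m : ℕ} {r : ℤ → ℤ}

theorem levelQ_of (h : POSB.Std d m r) : LevelQ d m r :=
  levelQ h.hd h.hdm h.hr (class_flowQ h.hd h.hdm h.hco h.hr
    (mixQ h.hd h.hdm h.hco h.hw h.hr (fourier_decayQ h.hd h.hdm h.hco h.hw h.hr)))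

theorem levelF_of (h : POSB.Std d m r) : LevelF d m r := levelF h (levelQ_of h)

private theorem good85 (h : POSB.Std d m r) {G : Set ℤ} {z D : ℝ} (hG : TInv d m r G z)
    (hD : Tendsto (fun x : ℝ => cN G x / x) atTop (𝓝 D)) (hD0 : 0 < D) : ∀ᶠ x in atTop, D / 2 ≤ fd G x := by
  have hdens : PL.dens G = D := tendsto_nhds_unique (POSB.tendsto_dens h hG) hD
  have h1 := (PL.stab_tendsto h.hd h.hdm h.hco h.hr h.gam h.mix hG).eventually
      (lt_mem_nhds (by linarith : D / 2 < PL.dens G))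
  exact h1.mono fun x hx => hx.le

/-- The set of the integers whose orbit stays above `B`, if the exceptional set is infinite. -/
theorem above_pos (h : POSB.Std d m r) (hinf : ¬ (E d m r).Finite) (B : ℝ) :
    ∃ η : ℝ, 0 < η ∧ TInv d m r (POSB.Above d m r B) B ∧ ∀ᶠ x in atTop, η ≤ fd (POSB.Above d m r B) x := by
  obtain ⟨β, hβ, hE⟩ := POSB.above h
  have hβ0 : β B ≠ 0 := fun h0 => hinf (hE.2 ⟨_, h0⟩)
  have hβ1 : 0 < β B := by
    refine lt_of_le_of_ne (ge_of_tendsto (hβ B) ?_) hβ0.symm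
    filter_upwards [eventually_gt_atTop 0] with x hx
    exact div_nonneg (cN_nonneg _ x) hx.le
  exact ⟨β B / 2, by linarith, POSB.tinv_Above B, good85 h (POSB.tinv_Above B) (hβ B) hβ1⟩

/-- The number of the `n ∈ [x, 2x)` with the property `P`. -/
noncomputable def num (P : ℤ → Prop) (x : ℝ) : ℝ := ({n : ℤ | x ≤ n ∧ (n : ℝ) < 2 * x ∧ P n}.ncard : ℝ)

theorem num_nonneg (P : ℤ → Prop) (x : ℝ) : 0 ≤ num P x := Nat.cast_nonneg _

private theorem fin85 (x : ℝ) (P : ℤ → Prop) : {n : ℤ | x ≤ n ∧ (n : ℝ) < 2 * x ∧ P n}.Finite := by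
  refine (Set.finite_Icc ⌊x⌋ ⌈2 * x⌉).subset ?_
  rintro n ⟨h1, h2, -⟩
  refine ⟨Int.floor_le_iff.2 (by linarith), ?_⟩
  have h3 : (n : ℝ) ≤ (⌈2 * x⌉ : ℤ) := h2.le.trans (Int.le_ceil _)
  exact_mod_cast h3

theorem num_mono {P P' : ℤ → Prop} (h : ∀ n, P n → P' n) (x : ℝ) : num P x ≤ num P' x := by
  unfold num
  rw [Nat.cast_le]
  exact Set.ncard_le_ncard (fun n hn => ⟨hn.1, hn.2.1, h n hn.2.2⟩) (fin85 x _)

/-- Almost primes in invariant sets; and the exceptional set. -/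
theorem rough_all (h : POSB.Std d m r) : ∃ c₀ c : ℝ, 0 < c₀ ∧ 0 < c ∧
    (∀ D : ℝ, 0 < D → ∃ X : ℝ, ∀ G : Set ℤ, POSB.Inv d m r G → Tendsto (fun x : ℝ => cN G x / x) atTop (𝓝 D) →
      ∀ x : ℝ, X ≤ x → c * D * (x / Real.log x) ≤ num (fun n => n ∈ G ∧ Rough d r (x ^ c₀) n) x) ∧
    ((E d m r).Finite ↔ ∃ B : ℝ, Tendsto (fun x : ℝ => num (fun n => (∀ t : ℕ, B < ((T d m r)^[t] n : ℝ)) ∧
      Rough d r (x ^ c₀) n) x / (x / Real.log x)) atTop (𝓝 0)) := by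
  obtain ⟨c₀, c, hc₀, hc, hs⟩ := sieve_inv h.hd h.hdm h.hco h.hr (levelQ_of h) (levelF_of h)
  refine ⟨c₀, c / 2, hc₀, by positivity, ?_, ?_⟩
  · intro D hD
    obtain ⟨X, hX⟩ := hs 0 (D / 2) (by positivity)
    refine ⟨X, fun G hG hGD x hx => ?_⟩
    have h1 := hX G hG.tinv (good85 h hG.tinv hGD hD) x hx
    have e : c / 2 * D * (x / Real.log x) = c * (D / 2) * (x / Real.log x) := by ring
    rw [e]
    exact h1
  · constructor
    · intro hfin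
      obtain ⟨B, hB⟩ := PRE.stay_empty h.hd h.hr hfin
      refine ⟨B, ?_⟩
      have e : (fun x : ℝ => num (fun n => (∀ t : ℕ, B < ((T d m r)^[t] n : ℝ)) ∧
          Rough d r (x ^ c₀) n) x / (x / Real.log x)) = fun _ => 0 := by
        funext x
        have h1 : {n : ℤ | x ≤ n ∧ (n : ℝ) < 2 * x ∧ ((∀ t : ℕ, B < ((T d m r)^[t] n : ℝ)) ∧
            Rough d r (x ^ c₀) n)} = ∅ := by
          rw [Set.eq_empty_iff_forall_notMem]
          rintro n ⟨-, -, h2, -⟩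
          exact hB n ⟨0, fun k _ => h2 k⟩
        unfold num
        rw [h1, Set.ncard_empty, Nat.cast_zero, zero_div]
      rw [e]
      exact tendsto_const_nhds
    · rintro ⟨B, hB⟩
      by_contra hinf
      obtain ⟨η, hη, hG, hfd⟩ := above_pos h hinf B
      obtain ⟨X, hX⟩ := hs B η hη
      have h1 := hB.eventually (gt_mem_nhds (show 0 < c * η by positivity))
      obtain ⟨x, hx1, hx2, hx3, hx4⟩ := (h1.and ((eventually_ge_atTop X).and ((eventually_gt_atTop 0).and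
        (Real.tendsto_log_atTop.eventually_gt_atTop 0)))).exists
      have h2 := hX _ hG hfd x hx2
      have h3 : 0 < x / Real.log x := div_pos hx3 hx4
      rw [div_lt_iff₀ h3] at hx1
      exact absurd (lt_of_le_of_lt h2 hx1) (lt_irrefl _)

/-- The least element in a residue class; and the exceptional set. -/
theorem linnik_all (h : POSB.Std d m r) : ∃ L : ℝ, 0 < L ∧
    (∀ D : ℝ, 0 < D → ∃ N₀ : ℕ, ∀ G : Set ℤ, POSB.Inv d m r G → Tendsto (fun x : ℝ => cN G x / x) atTop (𝓝 D) →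
      ∀ N : ℕ, N₀ ≤ N → Mod d m r N → ∀ a : ℤ, ∃ n ∈ G, 0 < n ∧ (n : ℝ) ≤ (N : ℝ) ^ L ∧ (N : ℤ) ∣ n - a) ∧
    ((E d m r).Finite ↔ ∃ B : ℝ, ∀ N₀ : ℕ, ∃ N : ℕ, N₀ ≤ N ∧ Mod d m r N ∧ ∃ a : ℤ, ∀ n : ℤ, 0 < n →
      (n : ℝ) ≤ (N : ℝ) ^ L → (N : ℤ) ∣ n - a → ∃ t : ℕ, ((T d m r)^[t] n : ℝ) ≤ B) := by
  obtain ⟨L, hL, hs⟩ := linnik_inv (levelF_of h)
  refine ⟨L, hL, ?_, ?_⟩
  · intro D hD
    obtain ⟨N₀, hN₀⟩ := hs 0 (D / 2) (by positivity)
    exact ⟨N₀, fun G hG hGD N hN hM a => hN₀ G hG.tinv (good85 h hG.tinv hGD hD) N hN hM a⟩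
  · constructor
    · intro hfin
      obtain ⟨B, hB⟩ := PRE.stay_empty h.hd h.hr hfin
      refine ⟨B, fun N₀ => ⟨d ^ N₀, (Nat.lt_pow_self (by have := h.hd; omega)).le, ⟨N₀, 0, 1, ⟨one_pos, ?_, ?_⟩, by simp⟩, 0,
        fun n _ _ _ => ?_⟩⟩
      · exact Nat.coprime_one_left d
      · intro p hp hp1 _
        exact hp.one_lt.ne' (Nat.dvd_one.1 hp1)
      · have h6 := hB n
        push Not at h6
        obtain ⟨t, -, ht⟩ := h6 0
        exact ⟨t, ht⟩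
    · rintro ⟨B, hB⟩
      by_contra hinf
      obtain ⟨η, hη, hG, hfd⟩ := above_pos h hinf B
      obtain ⟨N₀, hN₀⟩ := hs B η hη
      obtain ⟨N, hN, hM, a, ha⟩ := hB N₀
      obtain ⟨n, hn1, hn2, hn3, hn4⟩ := hN₀ _ hG hfd N hN hM a
      obtain ⟨t, ht⟩ := ha n hn2 hn3 hn4
      exact absurd (hn1 t) (not_lt.2 ht)

/-- For `d = 2`, `m = 3`, `r_1 = ± 1` all `N` are allowed. -/
theorem mod_three {r : ℤ → ℤ} (hr : r 1 = 1 ∨ r 1 = -1) {N : ℕ} (hN : 0 < N) : Mod 2 3 r N := by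
  obtain ⟨i, q, hq, rfl⟩ := Nat.exists_eq_two_pow_mul_odd hN.ne'
  refine ⟨i, 0, q, ⟨hq.pos, ?_, ?_⟩, by simp⟩
  · exact Nat.coprime_two_right.2 hq
  · rintro p hp - ⟨h1, -⟩
    have h2 : (p : ℤ) ∣ 1 := by
      rcases hr with h | h <;> rw [h] at h1
      · simpa using h1
      · simpa using h1
    have h3 : p ∣ 1 := by exact_mod_cast h2
    exact hp.one_lt.ne' (Nat.dvd_one.1 h3)

private theorem rough_three {y : ℝ} {n : ℤ} (h : Rough 2 (fun _ => -1) y n) : ∀ p : ℕ, p.Prime → (p : ℤ) ∣ n → y ≤ p := by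
  intro p hp hpn
  rcases h p hp hpn with ⟨h1, -⟩ | h1
  · have h4 : (p : ℤ) ∣ 1 := by simpa using h1
    have h5 : p ∣ 1 := by exact_mod_cast h4
    exact absurd (Nat.dvd_one.1 h5) hp.one_lt.ne'
  · exact h1

/-- The map `3x + 1`. -/
theorem three_all : ∃ c₀ c L : ℝ, 0 < c₀ ∧ 0 < c ∧ 0 < L ∧
    (∃ X : ℝ, ∀ x : ℝ, X ≤ x → c * (x / Real.log x) ≤
      num (fun n => (∃ t : ℕ, (T 2 3 (fun _ => -1))^[t] n = 1) ∧ ∀ p : ℕ, p.Prime → (p : ℤ) ∣ n → x ^ c₀ ≤ p) x) ∧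
    ((∀ n : ℤ, 0 < n → ∃ t : ℕ, (T 2 3 (fun _ => -1))^[t] n = 1) ↔
      Tendsto (fun x : ℝ => num (fun n => (¬ ∃ t : ℕ, (T 2 3 (fun _ => -1))^[t] n = 1) ∧
        ∀ p : ℕ, p.Prime → (p : ℤ) ∣ n → x ^ c₀ ≤ p) x / (x / Real.log x)) atTop (𝓝 0)) ∧
    (∃ N₀ : ℕ, ∀ N : ℕ, N₀ ≤ N → ∀ a : ℤ, ∃ n : ℤ, 0 < n ∧ (n : ℝ) ≤ (N : ℝ) ^ L ∧ (N : ℤ) ∣ n - a ∧
      ∃ t : ℕ, (T 2 3 (fun _ => -1))^[t] n = 1) ∧
    ((∀ n : ℤ, 0 < n → ∃ t : ℕ, (T 2 3 (fun _ => -1))^[t] n = 1) ↔ ∀ N₀ : ℕ, ∃ N : ℕ, N₀ ≤ N ∧ ∃ a : ℤ,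
      ∀ n : ℤ, 0 < n → (n : ℝ) ≤ (N : ℝ) ^ L → (N : ℤ) ∣ n - a → ∃ t : ℕ, (T 2 3 (fun _ => -1))^[t] n = 1) := by
  have h := POSB.std_three
  obtain ⟨c₀, c, hc₀, hc, hs⟩ := sieve_inv h.hd h.hdm h.hco h.hr (levelQ_of h) (levelF_of h)
  obtain ⟨L, hL, hl⟩ := linnik_inv (levelF_of h)
  set G : Set ℤ := {n : ℤ | ∃ t : ℕ, (T 2 3 (fun _ => -1))^[t] n = 1} with hGd
  have hG : POSB.Inv 2 3 (fun _ => (-1 : ℤ)) G := PW.inv_reach
  obtain ⟨p, hp0, hp, -⟩ := POSB.three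
  have hgood := good85 h hG.tinv hp hp0
  refine ⟨c₀, c * (p / 2), L, hc₀, by positivity, hL, ?_, ?_, ?_, ?_⟩
  · obtain ⟨X, hX⟩ := hs 0 (p / 2) (by positivity)
    refine ⟨X, fun x hx => (hX G hG.tinv hgood x hx).trans ?_⟩
    exact num_mono (P := fun n => n ∈ G ∧ Rough 2 (fun _ => -1) (x ^ c₀) n)
      (fun n hn => ⟨hn.1, rough_three hn.2⟩) x
  · constructor
    · intro hall
      have hev : ∀ᶠ x : ℝ in atTop, num (fun n => (¬ ∃ t : ℕ, (T 2 3 (fun _ => -1))^[t] n = 1) ∧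
        ∀ p : ℕ, p.Prime → (p : ℤ) ∣ n → x ^ c₀ ≤ p) x / (x / Real.log x) = 0 := by
        filter_upwards [eventually_gt_atTop 0] with x hx
        have h1 : {n : ℤ | x ≤ n ∧ (n : ℝ) < 2 * x ∧ ((¬ ∃ t : ℕ, (T 2 3 (fun _ => -1))^[t] n = 1) ∧
            ∀ p : ℕ, p.Prime → (p : ℤ) ∣ n → x ^ c₀ ≤ p)} = ∅ := by
          rw [Set.eq_empty_iff_forall_notMem]
          rintro n ⟨h2, -, h3, -⟩
          refine h3 (hall n ?_)
          have : (0 : ℝ) < n := hx.trans_le h2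
          exact_mod_cast this
        unfold num
        rw [h1, Set.ncard_empty, Nat.cast_zero, zero_div]
      exact (tendsto_congr' hev).2 tendsto_const_nhds
    · intro hlim
      by_contra hno
      obtain ⟨η, hη, hGc, hfd⟩ := NL.three_compl hno
      obtain ⟨X, hX⟩ := hs 0 η hη
      have h1 := hlim.eventually (gt_mem_nhds (show 0 < c * η by positivity))
      obtain ⟨x, hx1, hx2, hx3, hx4⟩ := (h1.and ((eventually_ge_atTop X).and ((eventually_gt_atTop 0).and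
        (Real.tendsto_log_atTop.eventually_gt_atTop 0)))).exists
      have h2 := (hX _ hGc hfd x hx2).trans (num_mono (P := fun n => n ∈ Gᶜ ∧ Rough 2 (fun _ => -1) (x ^ c₀) n)
        (P' := fun n => (¬ ∃ t : ℕ, (T 2 3 (fun _ => -1))^[t] n = 1) ∧ ∀ p : ℕ, p.Prime → (p : ℤ) ∣ n → x ^ c₀ ≤ p)
        (fun n hn => ⟨hn.1, rough_three hn.2⟩) x)
      have h3 : 0 < x / Real.log x := div_pos hx3 hx4
      rw [div_lt_iff₀ h3] at hx1
      exact absurd (lt_of_le_of_lt h2 hx1) (lt_irrefl _)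
  · obtain ⟨N₀, hN₀⟩ := hl 0 (p / 2) (by positivity)
    refine ⟨max N₀ 1, fun N hN a => ?_⟩
    obtain ⟨n, hn1, hn2, hn3, hn4⟩ := hN₀ G hG.tinv hgood N ((le_max_left _ _).trans hN)
      (mod_three (r := fun _ => -1) (Or.inr rfl) (by have := (le_max_right N₀ 1).trans hN; omega)) a
    exact ⟨n, hn2, hn3, hn4, hn1⟩
  · constructor
    · intro hall N₀
      exact ⟨N₀, le_rfl, 0, fun n hn _ _ => hall n hn⟩
    · intro hN
      by_contra hno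
      obtain ⟨η, hη, hGc, hfd⟩ := NL.three_compl hno
      obtain ⟨N₀, hN₀⟩ := hl 0 η hη
      obtain ⟨N, hN1, a, ha⟩ := hN (max N₀ 1)
      obtain ⟨n, hn1, hn2, hn3, hn4⟩ := hN₀ _ hGc hfd N ((le_max_left _ _).trans hN1)
        (mod_three (r := fun _ => -1) (Or.inr rfl) (by have := (le_max_right N₀ 1).trans hN1; omega)) a
      exact hn1 (ha n hn2 hn3 hn4)

end Pool.Agent.Helper85.LQ
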