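import Pool.Agent.Helper85.SV.Low
import Pool.Agent.Helper8.LQ.LDq

/-!
# Consequences of the level of distribution of the invariant sets

* `sieve_inv` : an invariant set `G` of density `≥ D` contains at least `c D x / log x` integers `n` of `[x, 2x)` whose prime factors that do
  not divide `g` (the greatest common divisor of `r_1 (d - 1)` and the `r_j - r_1`) are all `≥ x ^ c₀`.
* `linnik_inv` : `G` contains an integer `n ≤ N ^ L` in every residue class modulo `N`, for all large `N = d ^ i * (q * m ^ j)`.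
-/

set_option autoImplicit false

namespace Pool.Agent.Helper85.LQ

open Pool.Agent.Helper68.Moeller Pool.Agent.Helper52.Tao Pool.Agent.Helper8.ND Pool.Agent.Helper8.PW
  Pool.Agent.Helper8.LQ Filter Topology

/-- No prime factor `< y`, except for those which divide `g`. -/
def Rough (d : ℕ) (r : ℤ → ℤ) (y : ℝ) (n : ℤ) : Prop :=
  ∀ p : ℕ, p.Prime → (p : ℤ) ∣ n → Bad d r p ∨ y ≤ p

private theorem lda85 {d m : ℕ} {r : ℤ → ℤ} (h : LevelQ d m r) : ∃ θ : ℝ, 0 < θ ∧ θ ≤ 1 ∧ ∀ z : ℝ, ∃ X : ℝ, ∀ G : Set ℤ,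
    TInv d m r G z → ∀ x : ℝ, X ≤ x → ∀ q : ℕ, Ad d r q → ((q * m ^ 1 : ℕ) : ℝ) ≤ x ^ θ → ∀ b : ℤ,
      |fdc G (q * m ^ 1) b x - fd G x| ≤ Real.log x ^ (-3 : ℝ) := by
  obtain ⟨θ, C, hθ, hC, h⟩ := h 4
  refine ⟨min θ 1, lt_min hθ one_pos, min_le_right _ _, fun z => ?_⟩
  obtain ⟨X, hX⟩ := h z
  obtain ⟨Y, hY⟩ := eventually_atTop.1 ((eventually_ge_atTop X).and ((eventually_ge_atTop 1).and
    ((Real.tendsto_log_atTop.eventually_ge_atTop C).and (Real.tendsto_log_atTop.eventually_gt_atTop 0))))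
  refine ⟨Y, fun G hG x hx q hq hqx b => ?_⟩
  obtain ⟨h1, h2, h3, h4⟩ := hY x hx
  have h5 := hX G hG x h1 1 q hq (hqx.trans (Real.rpow_le_rpow_of_exponent_le h2 (min_le_left _ _))) b
  refine h5.trans ?_
  have h6 : Real.log x ^ (-3 : ℝ) = Real.log x * Real.log x ^ (-4 : ℝ) := by
    have : (-3 : ℝ) = 1 + (-4) := by norm_num
    rw [this, Real.rpow_add h4, Real.rpow_one]
  rw [h6]
  exact mul_le_mul_of_nonneg_right h3 (by positivity)

private theorem fin85 (x : ℝ) (P : ℤ → Prop) : {n : ℤ | x ≤ n ∧ (n : ℝ) < 2 * x ∧ P n}.Finite := by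
  refine (Set.finite_Icc ⌊x⌋ ⌈2 * x⌉).subset ?_
  rintro n ⟨h1, h2, -⟩
  refine ⟨Int.floor_le_iff.2 (by linarith), ?_⟩
  have h3 : (n : ℝ) ≤ (⌈2 * x⌉ : ℤ) := h2.le.trans (Int.le_ceil _)
  exact_mod_cast h3

private theorem harm85 {y : ℝ} (hy : 1 ≤ y) (S : Finset ℕ) (hS : ∀ N ∈ S, 1 ≤ N ∧ (N : ℝ) ≤ y) :
    ∑ N ∈ S, (1 : ℝ) / N ≤ 1 + Real.log y := by
  have h1 : S ⊆ Finset.Icc 1 ⌊y⌋₊ := fun N hN => Finset.mem_Icc.2 ⟨(hS N hN).1, Nat.le_floor (hS N hN).2⟩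
  have h2 : ∑ N ∈ S, (1 : ℝ) / N ≤ ∑ N ∈ Finset.Icc 1 ⌊y⌋₊, (1 : ℝ) / N :=
    Finset.sum_le_sum_of_subset_of_nonneg h1 fun N _ _ => by positivity
  have h3 : ∑ N ∈ Finset.Icc 1 ⌊y⌋₊, (1 : ℝ) / N = ((harmonic ⌊y⌋₊ : ℚ) : ℝ) := by
    rw [harmonic_eq_sum_Icc]
    push_cast
    exact Finset.sum_congr rfl fun N _ => by rw [one_div]
  rw [h3] at h2
  refine h2.trans ((harmonic_floor_le_one_add_log y hy))

/-- The step from the class `1` modulo `d`. -/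
private theorem step85 {d m : ℕ} {r : ℤ → ℤ} (hd : 2 ≤ d) (hdm : d < m) (hco : Nat.Coprime m d) (hr : Admissible d m r)
    {G : Set ℤ} {z : ℝ} (hG : TInv d m r G z) {N : ℕ} (hN0 : 0 < N) (hN : N.Coprime d) {x y : ℝ} (hx : z < x)
    (hy : y = (m * x - r 1) / d) : ∃ b : ℤ,
    |({n : ℤ | x ≤ n ∧ (n : ℝ) < 2 * x ∧ (N : ℤ) ∣ n ∧ n ∈ G ∧ (d : ℤ) ∣ n - 1}.ncard : ℝ) -
      ({n : ℤ | y ≤ n ∧ (n : ℝ) < 2 * y ∧ ((N * m ^ 1 : ℕ) : ℤ) ∣ n - b ∧ n ∈ G}.ncard : ℝ)| ≤ |(r 1 : ℝ)| + 1 := by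
  have hd0 : (0 : ℝ) < d := by exact_mod_cast (by omega : 0 < d)
  have hm0 : (0 : ℝ) < m := by exact_mod_cast (by omega : 0 < m)
  have hdz : (d : ℤ) ≠ 0 := by exact_mod_cast (by omega : d ≠ 0)
  have hmz : (m : ℤ) ≠ 0 := by exact_mod_cast (by omega : m ≠ 0)
  have hcop : IsCoprime ((N * m ^ 1 : ℕ) : ℤ) (d : ℤ) := by
    rw [pow_one]
    exact Nat.isCoprime_iff_coprime.2 (Nat.Coprime.mul_left hN hco)
  obtain ⟨u, e, hue⟩ := hcop
  have hr1 : (d : ℤ) ∣ m * 1 - r 1 := (hr 1 one_pos (by exact_mod_cast (by omega : 1 < d))).dvd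
  have hbdiv : ∀ n : ℤ, ((N * m ^ 1 : ℕ) : ℤ) ∣ n - (-(r 1 * e)) ↔ ((N * m ^ 1 : ℕ) : ℤ) ∣ d * n + r 1 := by
    intro n
    constructor
    · rintro ⟨k, hk⟩
      refine ⟨d * k + r 1 * u, ?_⟩
      linear_combination (d : ℤ) * hk - r 1 * hue
    · rintro ⟨k, hk⟩
      refine ⟨e * k + u * n, ?_⟩
      linear_combination e * hk - n * hue
  -- the map
  have hT : ∀ n : ℤ, (d : ℤ) ∣ n - 1 → (d : ℤ) * T d m r n = m * n - r 1 := by
    intro n hn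
    have h1 : n % (d : ℤ) = 1 := by
      obtain ⟨k, hk⟩ := hn
      have h2 : n = 1 + (d : ℤ) * k := by linarith
      rw [h2, Int.add_mul_emod_self_left]
      exact Int.emod_eq_of_lt (by norm_num) (by exact_mod_cast (by omega : 1 < d))
    have h2 : ¬ (d : ℤ) ∣ n := by
      intro h3
      have h4 : (d : ℤ) ∣ 1 := by
        have := dvd_sub h3 hn
        rwa [sub_sub_cancel] at this
      have h5 : d ∣ 1 := by exact_mod_cast h4
      have := Nat.le_of_dvd one_pos h5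
      omega
    unfold T
    rw [if_neg h2, h1]
    have h3 : (d : ℤ) ∣ m * n - r 1 := by
      have h4 : (m : ℤ) * n - r 1 = m * (n - 1) + (m * 1 - r 1) := by ring
      rw [h4]
      exact dvd_add (hn.mul_left _) hr1
    rw [mul_comm, Int.ediv_mul_cancel h3]
  obtain ⟨S₁, hS₁⟩ : ∃ S : Set ℤ, S = {n : ℤ | x ≤ n ∧ (n : ℝ) < 2 * x ∧ (N : ℤ) ∣ n ∧ n ∈ G ∧ (d : ℤ) ∣ n - 1} := ⟨_, rfl⟩
  obtain ⟨S₂, hS₂⟩ : ∃ S : Set ℤ, S = {n : ℤ | y ≤ n ∧ (n : ℝ) < 2 * y + r 1 / d ∧ ((N * m ^ 1 : ℕ) : ℤ) ∣ n - (-(r 1 * e)) ∧ n ∈ G} :=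
    ⟨_, rfl⟩
  obtain ⟨S₃, hS₃⟩ : ∃ S : Set ℤ, S = {n : ℤ | y ≤ n ∧ (n : ℝ) < 2 * y ∧ ((N * m ^ 1 : ℕ) : ℤ) ∣ n - (-(r 1 * e)) ∧ n ∈ G} :=
    ⟨_, rfl⟩
  have himg : T d m r '' S₁ = S₂ := by
    ext n
    rw [hS₁, hS₂]
    constructor
    · rintro ⟨k, ⟨h1, h2, h3, h4, h5⟩, rfl⟩
      have h6 := hT k h5
      have h7 : (d : ℝ) * (T d m r k : ℝ) = m * k - r 1 := by exact_mod_cast h6
      refine ⟨?_, ?_, (hbdiv _).2 ?_, (hG k (hx.trans_le h1)).1 h4⟩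
      · rw [hy, div_le_iff₀ hd0]
        nlinarith
      · have h8 : 2 * y + r 1 / d = (2 * (m * x) - r 1) / d := by
          rw [hy]
          ring
        rw [h8, lt_div_iff₀ hd0]
        nlinarith
      · obtain ⟨l, hl⟩ := h3
        rw [h6, hl]
        refine ⟨l, ?_⟩
        push_cast
        ring
    · rintro ⟨h1, h2, h3, h4⟩
      obtain ⟨l, hl⟩ := (hbdiv n).1 h3
      have h5 : (d : ℤ) * n + r 1 = m * (N * l) := by
        rw [hl]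
        push_cast
        ring
      have h5' : (d : ℝ) * n + r 1 = m * ((N : ℝ) * l) := by exact_mod_cast h5
      have h6 : (d : ℤ) ∣ N * l - 1 := by
        have h7 : (d : ℤ) ∣ m * (N * l - 1) := by
          have h8 : (m : ℤ) * (N * l - 1) = d * n - (m * 1 - r 1) := by linarith
          rw [h8]
          exact dvd_sub (dvd_mul_right _ _) hr1
        exact (Nat.isCoprime_iff_coprime.2 hco.symm : IsCoprime (d : ℤ) (m : ℤ)).dvd_of_dvd_mul_left h7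
      have h7 := hT _ h6
      have h8 : T d m r (N * l) = n := by
        apply mul_left_cancel₀ hdz
        linarith
      have h9 : x ≤ ((N * l : ℤ) : ℝ) := by
        rw [hy, div_le_iff₀ hd0] at h1
        push_cast
        have : (m : ℝ) * x ≤ m * ((N : ℝ) * l) := by linarith
        exact le_of_mul_le_mul_left this hm0
      have h10 : ((N * l : ℤ) : ℝ) < 2 * x := by
        have h11 : 2 * y + r 1 / d = (2 * (m * x) - r 1) / d := by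
          rw [hy]
          ring
        rw [h11, lt_div_iff₀ hd0] at h2
        push_cast
        have : (m : ℝ) * ((N : ℝ) * l) < m * (2 * x) := by linarith
        exact lt_of_mul_lt_mul_left this hm0.le
      refine ⟨N * l, ⟨h9, h10, dvd_mul_right _ _, ?_, h6⟩, h8⟩
      rw [hG _ (hx.trans_le h9), h8]
      exact h4
  have hinj : Set.InjOn (T d m r) S₁ := by
    intro a ha b hb hab
    rw [hS₁] at ha hb
    have h1 := hT a ha.2.2.2.2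
    have h2 := hT b hb.2.2.2.2
    rw [hab] at h1
    apply mul_left_cancel₀ hmz
    linarith
  have hcard : S₁.ncard = S₂.ncard := by
    rw [← himg, hinj.ncard_image]
  refine ⟨-(r 1 * e), ?_⟩
  rw [← hS₁, ← hS₃, hcard]
  -- the end of the interval
  have hfin : ∀ a b : ℝ, ({n : ℤ | a ≤ n ∧ (n : ℝ) < b}.ncard : ℝ) ≤ max (b - a) 0 + 1 := by
    intro a b
    have h1 : {n : ℤ | a ≤ n ∧ (n : ℝ) < b} ⊆ ((Finset.Ico ⌈a⌉ ⌈b⌉ : Finset ℤ) : Set ℤ) := by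
      rintro n ⟨h1, h2⟩
      rw [Finset.mem_coe, Finset.mem_Ico]
      exact ⟨Int.ceil_le.2 h1, Int.lt_ceil.2 h2⟩
    have h2 := Set.ncard_le_ncard h1 (Finset.finite_toSet _)
    rw [Set.ncard_coe_finset, Int.card_Ico] at h2
    have h3 : (((⌈b⌉ - ⌈a⌉).toNat : ℕ) : ℝ) ≤ max (b - a) 0 + 1 := by
      rcases le_or_gt (⌈b⌉ - ⌈a⌉) 0 with h | h
      · rw [Int.toNat_of_nonpos h, Nat.cast_zero]
        have := le_max_right (b - a) 0
        linarith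
      · have h4 : (((⌈b⌉ - ⌈a⌉).toNat : ℕ) : ℝ) = ((⌈b⌉ - ⌈a⌉ : ℤ) : ℝ) := by
          exact_mod_cast Int.toNat_of_nonneg h.le
        rw [h4]
        push_cast
        have h5 := Int.ceil_lt_add_one b
        have h6 := Int.le_ceil a
        have h7 := le_max_left (b - a) 0
        linarith
    exact le_trans (by exact_mod_cast h2) h3
  have hfin2 : ∀ a b : ℝ, {n : ℤ | a ≤ n ∧ (n : ℝ) < b}.Finite := by
    intro a b
    refine (Set.finite_Icc ⌈a⌉ ⌊b⌋).subset ?_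
    rintro n ⟨h1, h2⟩
    exact ⟨Int.ceil_le.2 h1, Int.le_floor.2 h2.le⟩
  have hS₂f : S₂.Finite := (hfin2 y (2 * y + r 1 / d)).subset (by rw [hS₂]; rintro n ⟨h1, h2, -⟩; exact ⟨h1, h2⟩)
  have hS₃f : S₃.Finite := (hfin2 y (2 * y)).subset (by rw [hS₃]; rintro n ⟨h1, h2, -⟩; exact ⟨h1, h2⟩)
  have hr1d : |(r 1 : ℝ) / d| ≤ |(r 1 : ℝ)| := by
    rw [abs_div, abs_of_pos hd0]
    exact div_le_self (abs_nonneg _) (by exact_mod_cast (by omega : 1 ≤ d))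
  rw [abs_le]
  constructor
  · -- `S₃ ⊆ S₂ ∪ ..`
    have h1 : S₃ ⊆ S₂ ∪ {n : ℤ | 2 * y + r 1 / d ≤ n ∧ (n : ℝ) < 2 * y} := by
      rw [hS₂, hS₃]
      rintro n ⟨h1, h2, h3, h4⟩
      rcases lt_or_ge (n : ℝ) (2 * y + r 1 / d) with h | h
      · exact Or.inl ⟨h1, h, h3, h4⟩
      · exact Or.inr ⟨h, h2⟩
    have h2 := (Set.ncard_le_ncard h1 (hS₂f.union (hfin2 _ _))).trans (Set.ncard_union_le _ _)
    have h3 : (S₃.ncard : ℝ) ≤ S₂.ncard + ({n : ℤ | 2 * y + r 1 / d ≤ n ∧ (n : ℝ) < 2 * y}.ncard : ℝ) := by exact_mod_cast h2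
    have h4 := hfin (2 * y + r 1 / d) (2 * y)
    have h5 : max (2 * y - (2 * y + r 1 / d)) 0 ≤ |(r 1 : ℝ)| := by
      refine max_le ?_ (abs_nonneg _)
      have := neg_le_abs ((r 1 : ℝ) / d)
      linarith
    linarith
  · have h1 : S₂ ⊆ S₃ ∪ {n : ℤ | 2 * y ≤ n ∧ (n : ℝ) < 2 * y + r 1 / d} := by
      rw [hS₂, hS₃]
      rintro n ⟨h1, h2, h3, h4⟩
      rcases lt_or_ge (n : ℝ) (2 * y) with h | h
      · exact Or.inl ⟨h1, h, h3, h4⟩
      · exact Or.inr ⟨h, h2⟩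
    have h2 := (Set.ncard_le_ncard h1 (hS₃f.union (hfin2 _ _))).trans (Set.ncard_union_le _ _)
    have h3 : (S₂.ncard : ℝ) ≤ S₃.ncard + ({n : ℤ | 2 * y ≤ n ∧ (n : ℝ) < 2 * y + r 1 / d}.ncard : ℝ) := by exact_mod_cast h2
    have h4 := hfin (2 * y) (2 * y + r 1 / d)
    have h5 : max (2 * y + r 1 / d - 2 * y) 0 ≤ |(r 1 : ℝ)| := by
      refine max_le ?_ (abs_nonneg _)
      have := le_abs_self ((r 1 : ℝ) / d)
      linarith
    linarith

theorem sieve_inv {d m : ℕ} (hd : 2 ≤ d) (hdm : d < m) (hco : Nat.Coprime m d) {r : ℤ → ℤ} (hr : Admissible d m r)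
    (hLQ : LevelQ d m r) (hLF : LevelF d m r) :
    ∃ c₀ c : ℝ, 0 < c₀ ∧ 0 < c ∧ ∀ z D : ℝ, 0 < D → ∃ X : ℝ, ∀ G : Set ℤ, TInv d m r G z →
      (∀ᶠ x in atTop, D ≤ fd G x) → ∀ x : ℝ, X ≤ x → c * D * (x / Real.log x) ≤
        ({n : ℤ | x ≤ n ∧ (n : ℝ) < 2 * x ∧ n ∈ G ∧ Rough d r (x ^ c₀) n}.ncard : ℝ) := by
  classical
  obtain ⟨θ, hθ, hθ1, hLD⟩ := lda85 hLQ
  obtain ⟨θ', -, hLF⟩ := hLF
  obtain ⟨s₀, c, hc, hsv⟩ := SV.lower_sieve
  have hd1 : (2 : ℝ) ≤ d := by exact_mod_cast hd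
  have hd0 : (0 : ℝ) < d := by linarith
  have hdm' : (d : ℝ) + 1 ≤ m := by exact_mod_cast hdm
  have hm0 : (0 : ℝ) < m := by linarith
  obtain ⟨c₀, hc₀⟩ : ∃ c₀ : ℝ, c₀ = θ / (4 * (s₀ + 1)) := ⟨_, rfl⟩
  have hc₀0 : 0 < c₀ := by rw [hc₀]; positivity
  refine ⟨c₀, c / (8 * d * c₀), hc₀0, by positivity, fun z D hD => ?_⟩
  obtain ⟨X₀, hX₀⟩ := hLD z
  obtain ⟨X₁, hX₁⟩ := hLF z (D / 16) (by positivity)
  have hev : ∀ᶠ x : ℝ in atTop, (X₀ ≤ x ∧ X₁ ≤ x) ∧ z < x ∧ 3 ≤ x ∧ 2 ≤ x ^ c₀ ∧ (m : ℝ) ≤ x ^ (θ / 2) ∧ |(r 1 : ℝ)| ≤ x ∧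
      (|(r 1 : ℝ)| + 1) * x ^ (1 / 2 : ℝ) ≤ x * Real.log x ^ (-3 : ℝ) ∧ 32 * d * c₀ / (c * D) ≤ Real.log x := by
    have h1 : ∀ᶠ x : ℝ in atTop, (|(r 1 : ℝ)| + 1) * x ^ (1 / 2 : ℝ) ≤ x * Real.log x ^ (-3 : ℝ) := by
      have h2 := (isLittleO_log_rpow_rpow_atTop (s := 1 / 2) 3 (by norm_num : (0 : ℝ) < 1 / 2)).bound
        (show (0 : ℝ) < 1 / (|(r 1 : ℝ)| + 1) by positivity)
      filter_upwards [h2, eventually_gt_atTop 1] with x hx hx1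
      have hl : 0 < Real.log x := Real.log_pos hx1
      have hx0 : 0 < x := by linarith
      rw [Real.norm_of_nonneg (by positivity), Real.norm_of_nonneg (by positivity), one_div, ← div_eq_inv_mul,
        le_div_iff₀ (by positivity)] at hx
      have h3 : x = x ^ (1 / 2 : ℝ) * x ^ (1 / 2 : ℝ) := by
        rw [← Real.rpow_add hx0]
        norm_num
      have h4 : Real.log x ^ (3 : ℝ) * Real.log x ^ (-3 : ℝ) = 1 := by
        rw [← Real.rpow_add hl]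
        norm_num
      have h5 : 0 < Real.log x ^ (-3 : ℝ) := Real.rpow_pos_of_pos hl _
      calc (|(r 1 : ℝ)| + 1) * x ^ (1 / 2 : ℝ) =
            (Real.log x ^ (3 : ℝ) * (|(r 1 : ℝ)| + 1)) * (x ^ (1 / 2 : ℝ) * Real.log x ^ (-3 : ℝ)) := by
              linear_combination (-(|(r 1 : ℝ)| + 1) * x ^ (1 / 2 : ℝ)) * h4
        _ ≤ x ^ (1 / 2 : ℝ) * (x ^ (1 / 2 : ℝ) * Real.log x ^ (-3 : ℝ)) :=
            mul_le_mul_of_nonneg_right hx (by positivity)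
        _ = x * Real.log x ^ (-3 : ℝ) := by rw [← mul_assoc, ← h3]
    filter_upwards [eventually_ge_atTop X₀, eventually_ge_atTop X₁, eventually_gt_atTop z, eventually_ge_atTop 3,
      (tendsto_rpow_atTop hc₀0).eventually_ge_atTop 2, (tendsto_rpow_atTop (half_pos hθ)).eventually_ge_atTop (m : ℝ),
      eventually_ge_atTop |(r 1 : ℝ)|, h1, Real.tendsto_log_atTop.eventually_ge_atTop (32 * d * c₀ / (c * D))]
      with x a1 a2 a3 a4 a5 a6 a7 a8 a9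
    exact ⟨⟨a1, a2⟩, a3, a4, a5, a6, a7, a8, a9⟩
  obtain ⟨X, hX⟩ := eventually_atTop.1 hev
  refine ⟨X, fun G hG hfd x hx => ?_⟩
  obtain ⟨⟨g1, g1'⟩, g3, g4, g5, g6, g7, g8, g9⟩ := hX x hx
  obtain ⟨δ, -, hδ⟩ := hX₁ G hG
  have hδD : 15 * D / 16 ≤ δ := by
    obtain ⟨y, hy⟩ := (hfd.and (eventually_ge_atTop X₁)).exists
    have := (abs_le.1 (hδ y hy.2).1).2
    linarith [hy.1]
  have hx0 : 0 < x := by linarith
  have hlog : 1 ≤ Real.log x := by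
    rw [Real.le_log_iff_exp_le hx0]
    have := Real.exp_one_lt_d9
    linarith
  have hl0 : 0 < Real.log x := by linarith
  -- the image of the interval
  obtain ⟨y, hy⟩ : ∃ y : ℝ, y = (m * x - r 1) / d := ⟨_, rfl⟩
  have hxy : x ≤ y := by
    rw [hy, le_div_iff₀ hd0]
    have := le_abs_self (r 1 : ℝ)
    nlinarith
  have hy0 : 0 < y := by linarith
  have hym : y / m ≤ x := by
    rw [div_le_iff₀ hm0, hy, div_le_iff₀ hd0]
    have h1 := neg_le_abs (r 1 : ℝ)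
    have h2 : (m : ℝ) * x * 2 ≤ x * m * d := by
      have : 0 ≤ (m : ℝ) * x := by positivity
      nlinarith
    have h3 : x ≤ m * x := by nlinarith
    nlinarith
  have hym2 : x / (2 * d) ≤ y / m := by
    rw [div_le_div_iff₀ (by positivity) hm0, hy]
    have e1 : (m * x - r 1) / d * (2 * d) = 2 * (m * x - r 1) := by field_simp
    rw [e1]
    have h1 := le_abs_self (r 1 : ℝ)
    have h3 : 2 * x ≤ m * x := by nlinarith
    nlinarith
  have hlogy : Real.log y ^ (-3 : ℝ) ≤ Real.log x ^ (-3 : ℝ) :=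
    Real.rpow_le_rpow_of_nonpos hl0 (Real.log_le_log hx0 hxy) (by norm_num)
  -- the sieve
  have hAfin : {n : ℤ | x ≤ n ∧ (n : ℝ) < 2 * x ∧ (n ∈ G ∧ (d : ℤ) ∣ n - 1)}.Finite := fin85 x _
  obtain ⟨A, hA⟩ : ∃ A : Finset ℤ, A = hAfin.toFinset := ⟨_, rfl⟩
  have hAmem : ∀ n, n ∈ A ↔ x ≤ n ∧ (n : ℝ) < 2 * x ∧ (n ∈ G ∧ (d : ℤ) ∣ n - 1) := by
    intro n
    rw [hA, Set.Finite.mem_toFinset, Set.mem_ofPred_eq]
  obtain ⟨PP, hPP⟩ : ∃ PP : Finset ℕ, PP = (Finset.range ⌈x ^ c₀⌉₊).filter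
    (fun p : ℕ => p.Prime ∧ (p : ℝ) < x ^ c₀ ∧ ¬ p ∣ d ∧ ¬ Bad d r p) := ⟨_, rfl⟩
  have hPPmem : ∀ p : ℕ, p ∈ PP ↔ p.Prime ∧ (p : ℝ) < x ^ c₀ ∧ ¬ p ∣ d ∧ ¬ Bad d r p := by
    intro p
    rw [hPP, Finset.mem_filter, Finset.mem_range]
    constructor
    · exact fun h => h.2
    · exact fun h => ⟨Nat.lt_ceil.2 h.2.1, h⟩
  obtain ⟨Xs, hXs⟩ : ∃ Xs : ℝ, Xs = y / m * fd G y := ⟨_, rfl⟩
  obtain ⟨err, herr⟩ : ∃ err : ℝ, err = 2 * x * Real.log x ^ (-3 : ℝ) := ⟨_, rfl⟩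
  have herr0 : 0 ≤ err := by rw [herr]; positivity
  have hXlow : D / (4 * d) * x ≤ Xs := by
    have h1 : δ - D / 16 ≤ fd G y := by
      have := (abs_le.1 (hδ y (g1'.trans hxy)).1).1
      linarith
    have h2 : D / 2 ≤ fd G y := by linarith
    rw [hXs]
    calc D / (4 * d) * x = x / (2 * d) * (D / 2) := by field_simp; ring
      _ ≤ y / m * fd G y := mul_le_mul hym2 h2 (by positivity) (by positivity)
  have hXs0 : 0 ≤ Xs := le_trans (by positivity) hXlow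
  have hlev1 : (x ^ c₀) ^ s₀ ≤ x ^ (θ / 4) := by
    rw [← Real.rpow_natCast, ← Real.rpow_mul hx0.le]
    refine Real.rpow_le_rpow_of_exponent_le (by linarith) ?_
    rw [hc₀]
    have h4 : (0 : ℝ) ≤ s₀ := Nat.cast_nonneg _
    rw [div_mul_eq_mul_div, div_le_iff₀ (by positivity)]
    nlinarith
  have hlev : (x ^ c₀) ^ s₀ ≤ x ^ (1 / 2 : ℝ) :=
    hlev1.trans (Real.rpow_le_rpow_of_exponent_le (by linarith) (by linarith))
  have hcount : ∀ N : ℕ, Squarefree N → N.primeFactors ⊆ PP → (N : ℝ) ≤ (x ^ c₀) ^ s₀ →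
      |((A.filter (fun n => (N : ℤ) ∣ n)).card : ℝ) - Xs / N| ≤ err / N := by
    intro N hsq hsub hNle
    have hN0 : N ≠ 0 := hsq.ne_zero
    have hN1 : 1 ≤ N := Nat.one_le_iff_ne_zero.2 hN0
    have hNr : (0 : ℝ) < N := by exact_mod_cast hN1
    have hcd : N.Coprime d := by
      rw [Nat.coprime_iff_gcd_eq_one]
      by_contra hne
      obtain ⟨p, hp, hpd⟩ := Nat.exists_prime_and_dvd hne
      have h1 : p ∣ N := hpd.trans (Nat.gcd_dvd_left _ _)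
      have h2 : p ∣ d := hpd.trans (Nat.gcd_dvd_right _ _)
      exact ((hPPmem p).1 (hsub (Nat.mem_primeFactors.2 ⟨hp, h1, hN0⟩))).2.2.1 h2
    have hAd : Ad d r N :=
      ⟨hN1, hcd, fun p hp hpN => ((hPPmem p).1 (hsub (Nat.mem_primeFactors.2 ⟨hp, hpN, hN0⟩))).2.2.2⟩
    obtain ⟨b, hb⟩ := step85 hd hdm hco hr hG (by omega) hcd g3 hy
    have e2 : ((A.filter (fun n => (N : ℤ) ∣ n)).card : ℝ) =
        ({n : ℤ | x ≤ n ∧ (n : ℝ) < 2 * x ∧ (N : ℤ) ∣ n ∧ n ∈ G ∧ (d : ℤ) ∣ n - 1}.ncard : ℝ) := by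
      rw [← Set.ncard_coe_finset]
      congr 2
      ext n
      rw [Finset.mem_coe, Finset.mem_filter, hAmem, Set.mem_ofPred_eq]
      tauto
    have hNm : ((N * m ^ 1 : ℕ) : ℝ) ≤ y ^ θ := by
      push_cast
      rw [pow_one]
      calc (N : ℝ) * m ≤ x ^ (θ / 4) * x ^ (θ / 2) := mul_le_mul (hNle.trans hlev1) g6 hm0.le (by positivity)
        _ = x ^ (θ / 4 + θ / 2) := (Real.rpow_add hx0 _ _).symm
        _ ≤ x ^ θ := Real.rpow_le_rpow_of_exponent_le (by linarith) (by linarith)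
        _ ≤ y ^ θ := Real.rpow_le_rpow hx0.le hxy hθ.le
    have h1 := hX₀ G hG y (g1.trans hxy) N hAd hNm b
    have e3 : ({n : ℤ | y ≤ n ∧ (n : ℝ) < 2 * y ∧ ((N * m ^ 1 : ℕ) : ℤ) ∣ n - b ∧ n ∈ G}.ncard : ℝ) =
        y / m / N * fdc G (N * m ^ 1) b y := by
      unfold fdc
      push_cast
      rw [pow_one]
      field_simp
    rw [← e2, e3] at hb
    have e5 : ((A.filter (fun n => (N : ℤ) ∣ n)).card : ℝ) - Xs / N =
        (((A.filter (fun n => (N : ℤ) ∣ n)).card : ℝ) - y / m / N * fdc G (N * m ^ 1) b y) +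
          y / m / N * (fdc G (N * m ^ 1) b y - fd G y) := by
      rw [hXs]
      ring
    have h3 : |y / m / N * (fdc G (N * m ^ 1) b y - fd G y)| ≤ x / N * Real.log x ^ (-3 : ℝ) := by
      rw [abs_mul, abs_of_pos (show 0 < y / m / N by positivity)]
      exact mul_le_mul (div_le_div_of_nonneg_right hym hNr.le) (h1.trans hlogy) (abs_nonneg _) (by positivity)
    have h4 : |(r 1 : ℝ)| + 1 ≤ x / N * Real.log x ^ (-3 : ℝ) := by
      have h5 : (|(r 1 : ℝ)| + 1) * N ≤ x * Real.log x ^ (-3 : ℝ) :=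
        (mul_le_mul_of_nonneg_left (hNle.trans hlev) (by positivity)).trans g8
      rw [div_mul_eq_mul_div, le_div_iff₀ hNr]
      exact h5
    rw [e5]
    refine (abs_add_le _ _).trans ((add_le_add (hb.trans h4) h3).trans (le_of_eq ?_))
    rw [herr]
    ring
  have hsieve := hsv A PP Xs (x ^ c₀) (fun N => err / N) hXs0 g5 (fun p hp => ⟨((hPPmem p).1 hp).1, ((hPPmem p).1 hp).2.1⟩)
    hcount
  -- the error term
  have hsum : ∑ N ∈ (Finset.Icc 1 ⌊(x ^ c₀) ^ s₀⌋₊).filter (fun N => Squarefree N ∧ N.primeFactors ⊆ PP), err / (N : ℝ) ≤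
      err * (2 * Real.log x) := by
    have hy1 : 1 ≤ (x ^ c₀) ^ s₀ := one_le_pow₀ (by linarith)
    have h1 := harm85 hy1 ((Finset.Icc 1 ⌊(x ^ c₀) ^ s₀⌋₊).filter (fun N => Squarefree N ∧ N.primeFactors ⊆ PP)) (by
      intro N hN
      obtain ⟨h1, -⟩ := Finset.mem_filter.1 hN
      obtain ⟨h2, h3⟩ := Finset.mem_Icc.1 h1
      exact ⟨h2, (Nat.le_floor_iff (by positivity)).1 h3⟩)
    have h2 : Real.log ((x ^ c₀) ^ s₀) ≤ Real.log x := by
      refine Real.log_le_log (by positivity) (hlev.trans ?_)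
      calc x ^ (1 / 2 : ℝ) ≤ x ^ (1 : ℝ) := Real.rpow_le_rpow_of_exponent_le (by linarith) (by norm_num)
        _ = x := Real.rpow_one x
    have e1 : ∑ N ∈ (Finset.Icc 1 ⌊(x ^ c₀) ^ s₀⌋₊).filter (fun N => Squarefree N ∧ N.primeFactors ⊆ PP), err / (N : ℝ) =
        err * ∑ N ∈ (Finset.Icc 1 ⌊(x ^ c₀) ^ s₀⌋₊).filter (fun N => Squarefree N ∧ N.primeFactors ⊆ PP), 1 / (N : ℝ) := by
      rw [Finset.mul_sum]
      exact Finset.sum_congr rfl fun N _ => by ring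
    rw [e1]
    exact mul_le_mul_of_nonneg_left (by linarith) herr0
  have hlogz : Real.log (x ^ c₀) = c₀ * Real.log x := Real.log_rpow hx0 c₀
  have hmain : c / (8 * d * c₀) * D * (x / Real.log x) ≤ c * Xs / Real.log (x ^ c₀) - err * (2 * Real.log x) := by
    have h1 : err * (2 * Real.log x) = 4 * (x / Real.log x ^ 2) := by
      rw [herr, Real.rpow_neg hl0.le, show (3 : ℝ) = ((3 : ℕ) : ℝ) by norm_num, Real.rpow_natCast]
      field_simp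
      norm_num
    have h2 : c * (D / (4 * d) * x) / Real.log (x ^ c₀) ≤ c * Xs / Real.log (x ^ c₀) := by
      rw [hlogz]
      exact div_le_div_of_nonneg_right (mul_le_mul_of_nonneg_left hXlow hc.le) (by positivity)
    have h3 : c * (D / (4 * d) * x) / Real.log (x ^ c₀) = 2 * (c / (8 * d * c₀) * D * (x / Real.log x)) := by
      rw [hlogz]
      field_simp
      ring
    have h4 : 4 * (x / Real.log x ^ 2) ≤ c / (8 * d * c₀) * D * (x / Real.log x) := by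
      have h5 : 4 * (x / Real.log x ^ 2) = 4 / Real.log x * (x / Real.log x) := by
        field_simp
      rw [h5]
      refine mul_le_mul_of_nonneg_right ?_ (by positivity)
      rw [div_le_iff₀ hl0]
      rw [div_le_iff₀ (by positivity)] at g9
      have e1 : c / (8 * d * c₀) * D * Real.log x = (c * D * Real.log x) / (8 * d * c₀) := by ring
      rw [e1, le_div_iff₀ (by positivity)]
      linarith
    rw [h1]
    linarith
  have hset : ((A.filter (fun n => ∀ p ∈ PP, ¬ (p : ℤ) ∣ n)).card : ℝ) ≤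
      ({n : ℤ | x ≤ n ∧ (n : ℝ) < 2 * x ∧ n ∈ G ∧ Rough d r (x ^ c₀) n}.ncard : ℝ) := by
    rw [← Set.ncard_coe_finset, Nat.cast_le]
    refine Set.ncard_le_ncard ?_ (fin85 x _)
    intro n hn
    rw [Finset.mem_coe, Finset.mem_filter, hAmem] at hn
    obtain ⟨⟨h1, h2, h3, h4⟩, h5⟩ := hn
    refine ⟨h1, h2, h3, fun p hp hpn => ?_⟩
    by_contra hcon
    rw [not_or, not_le] at hcon
    refine h5 p ((hPPmem p).2 ⟨hp, hcon.2, ?_, hcon.1⟩) hpn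
    intro hpd
    have h6 : (p : ℤ) ∣ 1 := by
      have h7 : (p : ℤ) ∣ n - 1 := (Int.natCast_dvd_natCast.2 hpd).trans h4
      have := dvd_sub hpn h7
      rwa [sub_sub_cancel] at this
    have h8 : p ∣ 1 := by exact_mod_cast h6
    exact hp.one_lt.ne' (Nat.dvd_one.1 h8)
  linarith

/-- The moduli. -/
def Mod (d m : ℕ) (r : ℤ → ℤ) (N : ℕ) : Prop := ∃ i j q : ℕ, Ad d r q ∧ N = d ^ i * (q * m ^ j)

theorem linnik_inv {d m : ℕ} {r : ℤ → ℤ} (hLF : LevelF d m r) : ∃ L : ℝ, 0 < L ∧ ∀ z D : ℝ, 0 < D →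
    ∃ N₀ : ℕ, ∀ G : Set ℤ, TInv d m r G z → (∀ᶠ x in atTop, D ≤ fd G x) → ∀ N : ℕ, N₀ ≤ N → Mod d m r N →
      ∀ a : ℤ, ∃ n ∈ G, 0 < n ∧ (n : ℝ) ≤ (N : ℝ) ^ L ∧ (N : ℤ) ∣ n - a := by
  obtain ⟨θ, hθ, hLF⟩ := hLF
  refine ⟨1 / θ + 1, by positivity, fun z D hD => ?_⟩
  obtain ⟨X₀, hX₀⟩ := hLF z (D / 4) (by positivity)
  have ht : Tendsto (fun q : ℕ => (q : ℝ) ^ (1 / θ)) atTop atTop :=
    (tendsto_rpow_atTop (by positivity)).comp tendsto_natCast_atTop_atTop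
  obtain ⟨q₁, hq₁⟩ := eventually_atTop.1 (ht.eventually_ge_atTop X₀)
  refine ⟨max q₁ 2, fun G hG hfd N hN hM a => ?_⟩
  obtain ⟨δ, -, hδ⟩ := hX₀ G hG
  have hδD : 3 * D / 4 ≤ δ := by
    obtain ⟨y, hy⟩ := (hfd.and (eventually_ge_atTop X₀)).exists
    have := (abs_le.1 (hδ y hy.2).1).2
    linarith [hy.1]
  have h1 := hq₁ N ((le_max_left _ _).trans hN)
  have hq2 : 2 ≤ N := (le_max_right _ _).trans hN
  have hqr : (2 : ℝ) ≤ N := by exact_mod_cast hq2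
  obtain ⟨x, hx⟩ : ∃ x : ℝ, x = (N : ℝ) ^ (1 / θ) := ⟨_, rfl⟩
  rw [← hx] at h1
  have hx0 : 0 < x := by rw [hx]; positivity
  obtain ⟨i, j, q, hAd, hNe⟩ := hM
  have h4 := (hδ x h1).2 i j q hAd (by
    rw [← hNe, hx, ← Real.rpow_mul (by linarith), one_div, inv_mul_cancel₀ hθ.ne', Real.rpow_one]) a
  rw [← hNe] at h4
  have h6 : 0 < fdc G N a x := by
    have := (abs_le.1 h4).1
    linarith
  have h7 : ({n : ℤ | x ≤ n ∧ (n : ℝ) < 2 * x ∧ (N : ℤ) ∣ n - a ∧ n ∈ G}).Nonempty := by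
    by_contra hcon
    rw [Set.not_nonempty_iff_eq_empty] at hcon
    unfold fdc at h6
    rw [hcon, Set.ncard_empty, Nat.cast_zero, zero_mul, zero_div] at h6
    exact lt_irrefl _ h6
  obtain ⟨n, hn1, hn2, hn3, hn4⟩ := h7
  refine ⟨n, hn4, ?_, ?_, hn3⟩
  · have : (0 : ℝ) < n := hx0.trans_le hn1
    exact_mod_cast this
  · rw [Real.rpow_add (by linarith), Real.rpow_one, ← hx]
    nlinarith

end Pool.Agent.Helper85.LQ
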