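import Pool.Agent.Helper52.Tao.MX1

/-!
# Level of distribution for all moduli: the step from the exponential sums to the distribution modulo `m ^ S * Q`

The distribution of `F w`, `sg w = S`, modulo `m ^ S * Q` is close to the lift of the distribution modulo `m ^ S`, for all
`Q ≤ m ^ (κ S)` with the property `P`. The proof is the one of `Helper52.Tao.mixing_step` (helper14).
-/

set_option autoImplicit false

namespace Pool.Agent.Helper85.LQ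

open Pool.Agent.Helper68.Moeller Pool.Agent.Helper52.Tao ComplexConjugate

/-- Decay of the exponential sums at the phases `ζ / (m ^ S * Q)` that are not multiples of `1 / m ^ S`. -/
def FDQ (d m : ℕ) (r : ℤ → ℤ) (P : ℕ → Prop) : Prop :=
  ∀ A : ℝ, ∃ κ C : ℝ, 0 < κ ∧ 0 < C ∧ ∀ S Q : ℕ, 1 ≤ S → 1 ≤ Q → P Q → (Q : ℝ) ≤ (m : ℝ) ^ (κ * S) →
    ∀ e : ℤ, ((m ^ S * Q : ℕ) : ℤ) ∣ (d : ℤ) * e - 1 → ∀ ζ : ℤ, ¬ (Q : ℤ) ∣ ζ → ∀ t : ℕ,
      ‖Gs d m r e t 0 S ((ζ : ℝ) / ((m ^ S * Q : ℕ) : ℝ))‖ ≤ C * (d : ℝ) ^ t * (S : ℝ) ^ (-A)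

/-- Mixing modulo `m ^ S * Q`. -/
def MIXQ (d m : ℕ) (r : ℤ → ℤ) (P : ℕ → Prop) : Prop :=
  ∀ A : ℝ, ∃ κ C : ℝ, 0 < κ ∧ 0 < C ∧ ∀ S Q : ℕ, 1 ≤ S → 1 ≤ Q → P Q → (Q : ℝ) ≤ (m : ℝ) ^ (κ * S) →
    ∀ e : ℤ, ((m ^ S * Q : ℕ) : ℤ) ∣ (d : ℤ) * e - 1 → ∀ t : ℕ,
      oscI ((W d t).filter (fun w => sg w = S)) (F m r e) (m ^ S) Q ≤ C * (d : ℝ) ^ t * (S : ℝ) ^ (-A)

private theorem coprime_e85 {d : ℕ} {e M : ℤ} (he : M ∣ (d : ℤ) * e - 1) : IsCoprime M e := by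
  obtain ⟨c, hc⟩ := he
  exact ⟨-c, d, by linear_combination hc⟩

/-- One typical word: the inner sum is small. -/
theorem inner_boundQ {d m : ℕ} (hm1 : 2 ≤ m) {r : ℤ → ℤ} {P : ℕ → Prop} {C1 A' : ℝ}
    (hC1 : 0 < C1) (hA' : 0 ≤ A') {κ : ℝ}
    (hfd : ∀ S Q : ℕ, 1 ≤ S → 1 ≤ Q → P Q → (Q : ℝ) ≤ (m : ℝ) ^ (κ * S) →
      ∀ e : ℤ, ((m ^ S * Q : ℕ) : ℤ) ∣ (d : ℤ) * e - 1 → ∀ ζ : ℤ, ¬ (Q : ℤ) ∣ ζ → ∀ t : ℕ,
        ‖Gs d m r e t 0 S ((ζ : ℝ) / ((m ^ S * Q : ℕ) : ℝ))‖ ≤ C1 * (d : ℝ) ^ t * (S : ℝ) ^ (-A'))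
    {S Q : ℕ} (hS : 1 ≤ S) (hQ : 1 ≤ Q) (hP : P Q) {c : ℝ} (hc : 0 < c) (hκ : 0 < κ)
    (hQκ : (Q : ℝ) ≤ (m : ℝ) ^ (4 * c * κ * S))
    {e : ℤ} (he : ((m ^ S * Q : ℕ) : ℤ) ∣ (d : ℤ) * e - 1) {t' j σ : ℕ}
    (hσ : (σ : ℝ) ≤ (1 - 4 * c) * S) {ξ : ℕ} (hξ : ¬ Q ∣ ξ) :
    ‖∑ v ∈ (W d t').filter (fun v => σ + sg v = S),
        ex (-((ξ : ℝ) * ((m : ℝ) ^ σ * (e : ℝ) ^ j * F m r e v) / ((m ^ S * Q : ℕ) : ℝ)))‖ ≤
      C1 * (d : ℝ) ^ t' * (4 * c * S) ^ (-A') := by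
  have hm0 : (0 : ℝ) < m := by
    have : 0 < m := by omega
    exact_mod_cast this
  have hm1' : (1 : ℝ) ≤ m := by
    have : 1 ≤ m := by omega
    exact_mod_cast this
  have hS' : (1 : ℝ) ≤ S := by exact_mod_cast hS
  have h4c : 0 < 4 * c * S := by positivity
  have hσlt : σ < S := by
    have : (σ : ℝ) < S := by
      have h1 : (1 - 4 * c) * (S : ℝ) = S - 4 * c * S := by ring
      linarith
    exact_mod_cast this
  obtain ⟨S', rfl⟩ : ∃ S', S = S' + σ := ⟨S - σ, by omega⟩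
  have hS'1 : 1 ≤ S' := by omega
  have hS'c : 4 * c * ((S' + σ : ℕ) : ℝ) ≤ (S' : ℝ) := by
    have h1 : (1 - 4 * c) * ((S' + σ : ℕ) : ℝ) = ((S' + σ : ℕ) : ℝ) - 4 * c * ((S' + σ : ℕ) : ℝ) := by ring
    have h2 : ((S' + σ : ℕ) : ℝ) = S' + σ := by push_cast; ring
    linarith
  have hdvd : ((m ^ S' * Q : ℕ) : ℤ) ∣ (d : ℤ) * e - 1 := by
    refine dvd_trans ?_ he
    exact Int.natCast_dvd_natCast.2 (Nat.mul_dvd_mul_right (pow_dvd_pow m (by omega)) Q)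
  have hζ : ¬ (Q : ℤ) ∣ (ξ : ℤ) * e ^ j := by
    intro h1
    have h2 : IsCoprime (Q : ℤ) (e ^ j) := by
      have h3 : IsCoprime (((m ^ (S' + σ) * Q : ℕ) : ℤ)) e := coprime_e85 he
      rw [Nat.cast_mul] at h3
      exact h3.of_mul_left_right.pow_right
    have h3 := h2.dvd_of_dvd_mul_right h1
    exact hξ (by exact_mod_cast h3)
  have hQ' : (Q : ℝ) ≤ (m : ℝ) ^ (κ * (S' : ℝ)) := by
    refine hQκ.trans (Real.rpow_le_rpow_of_exponent_le hm1' ?_)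
    have h1 := mul_le_mul_of_nonneg_left hS'c hκ.le
    linarith
  have h4 := hfd S' Q hS'1 hQ hP hQ' e hdvd ((ξ : ℤ) * e ^ j) hζ t'
  have h5 : ∑ v ∈ (W d t').filter (fun v => σ + sg v = S' + σ),
        ex (-((ξ : ℝ) * ((m : ℝ) ^ σ * (e : ℝ) ^ j * F m r e v) / ((m ^ (S' + σ) * Q : ℕ) : ℝ))) =
      Gs d m r e t' 0 S' ((((ξ : ℤ) * e ^ j : ℤ) : ℝ) / ((m ^ S' * Q : ℕ) : ℝ)) := by
    unfold Gs
    refine Finset.sum_congr ?_ fun v _ => ?_
    · refine Finset.filter_congr fun v _ => ?_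
      omega
    · congr 2
      have hQ0 : (0 : ℝ) < Q := by exact_mod_cast hQ
      push_cast
      rw [pow_add]
      field_simp
  rw [h5]
  refine h4.trans (mul_le_mul_of_nonneg_left ?_ (by positivity))
  exact Real.rpow_le_rpow_of_nonpos h4c hS'c (by linarith)

theorem mixQ {d m : ℕ} (hd : 2 ≤ d) (hdm : d < m) (hco : Nat.Coprime m d)
    (hm : (m : ℝ) ≤ (d : ℝ) ^ ((d : ℝ) / ((d : ℝ) - 1))) {r : ℤ → ℤ} (hr : Admissible d m r) {P : ℕ → Prop}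
    (h1 : FDQ d m r P) : MIXQ d m r P := by
  classical
  intro A0
  have hld := log_d_pos hd
  have hlm := log_m_gt hd hdm
  have hlt := log_m_lt hd hdm hco hm
  have hd' : (2 : ℝ) ≤ d := by exact_mod_cast hd
  have hd0 : (0 : ℝ) < d := by linarith
  have hm2 : 2 ≤ m := by omega
  have hm0 : (0 : ℝ) < m := by
    have : 0 < m := by omega
    exact_mod_cast this
  have hm1 : (1 : ℝ) < m := by
    have : 1 < m := by omega
    exact_mod_cast this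
  set A : ℝ := max A0 0 with hA
  have hA0 : 0 ≤ A := le_max_right _ _
  set θ₀ : ℝ := Real.log m / Real.log d with hθ₀
  have hθ₀0 : 0 < θ₀ := div_pos (hld.trans hlm) hld
  have hq1 : (0 : ℝ) < 1 - 1 / (d : ℝ) := by
    have : 1 / (d : ℝ) ≤ 1 / 2 := one_div_le_one_div_of_le (by norm_num) hd'
    linarith
  set b : ℝ := (1 - 1 / (d : ℝ)) * θ₀ with hb
  have hb1 : b < 1 := by
    have e1 : b = ((d : ℝ) - 1) * Real.log m / (d * Real.log d) := by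
      rw [hb, hθ₀]; field_simp
    rw [e1, div_lt_one (by positivity)]
    exact hlt
  have hb0 : 0 < b := mul_pos hq1 hθ₀0
  set c : ℝ := (1 - b) / 8 with hc
  have hc0 : 0 < c := by rw [hc]; linarith
  have hc1 : c < 1 := by rw [hc]; linarith
  -- the larger slope
  set θ : ℝ := θ₀ * (1 + c) with hθ
  have hθ0 : 0 < θ := by positivity
  have hθb : (1 - 1 / (d : ℝ)) * θ < 1 - 4 * c := by
    have e1 : (1 - 1 / (d : ℝ)) * θ = b * (1 + c) := by rw [hθ, hb]; ring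
    rw [e1]
    have h2 : b * (1 + c) ≤ b + c := by nlinarith
    have h3 : b = 1 - 8 * c := by rw [hc]; ring
    linarith
  obtain ⟨B, hB1, hB⟩ := exists_B d r
  have hB1' : (1 : ℝ) ≤ B := by exact_mod_cast hB1
  obtain ⟨κ, C2, hκ, hC2, hoff⟩ := off_tail hd hdm hco hm hB1 hB
  obtain ⟨c2, hc2', hch2⟩ := chernoff hd hθ0 (a := 1 - 4 * c) hθb
  set A' : ℝ := (1 + A / κ + 2 * A) / 2 with hA'
  have hAk : 0 ≤ A / κ := div_nonneg hA0 hκ.le
  have hA'0 : 0 ≤ A' := by rw [hA']; positivity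
  obtain ⟨κF, C1, hκF, hC1, hfd⟩ := h1 A'
  obtain ⟨E2, hE2, hexp2⟩ := MX1_exp_neg_le (A := A) hc2'
  obtain ⟨E3, hE3, hexp3⟩ := MX1_exp_neg_le (A := A / κ + 1) (hld.trans hlm)
  obtain ⟨N₀, hN₀⟩ := exists_nat_gt (2 * B * E3)
  set K2 : ℝ := (θ + 1) * (2 * B) * d * C1 ^ 2 * (4 * c) ^ (-(2 * A')) with hK2
  have hK20 : 0 < K2 := by positivity
  set κ' : ℝ := min c (4 * c * κF) with hκ'
  have hκ'0 : 0 < κ' := lt_min hc0 (by positivity)
  refine ⟨κ', 2 * ((N₀ : ℝ) + 1) ^ A + 2 * E2 + 2 * C2 + 2 * E2 + Real.sqrt K2, hκ'0, by positivity, ?_⟩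
  intro S Q hS hQ hP hQS e he t
  have hS' : (1 : ℝ) ≤ S := by exact_mod_cast hS
  have hS0 : (0 : ℝ) < S := by linarith
  have hQ1 : (1 : ℝ) ≤ Q := by exact_mod_cast hQ
  have hQ0 : (0 : ℝ) < Q := by linarith
  have hQc : (Q : ℝ) ≤ (m : ℝ) ^ (c * S) := by
    refine hQS.trans (Real.rpow_le_rpow_of_exponent_le hm1.le ?_)
    exact mul_le_mul_of_nonneg_right (min_le_left _ _) hS0.le
  have hQF : (Q : ℝ) ≤ (m : ℝ) ^ (4 * c * κF * S) := by
    refine hQS.trans (Real.rpow_le_rpow_of_exponent_le hm1.le ?_)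
    exact mul_le_mul_of_nonneg_right (min_le_right _ _) hS0.le
  have hq : 0 < m ^ S := pow_pos (by omega) S
  have hdt : (0 : ℝ) < (d : ℝ) ^ t := by positivity
  have hSA : (0 : ℝ) < (S : ℝ) ^ (-A) := Real.rpow_pos_of_pos hS0 _
  -- reduce the exponent
  suffices hmain : oscI ((W d t).filter (fun w => sg w = S)) (F m r e) (m ^ S) Q ≤
      (2 * ((N₀ : ℝ) + 1) ^ A + 2 * E2 + 2 * C2 + 2 * E2 + Real.sqrt K2) * (d : ℝ) ^ t * (S : ℝ) ^ (-A) by
    refine hmain.trans (mul_le_mul_of_nonneg_left ?_ (by positivity))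
    exact Real.rpow_le_rpow_of_exponent_le hS' (by have := le_max_left A0 0; linarith)
  have hexpand : (2 * ((N₀ : ℝ) + 1) ^ A + 2 * E2 + 2 * C2 + 2 * E2 +
      Real.sqrt K2) * (d : ℝ) ^ t * (S : ℝ) ^ (-A) =
      2 * ((N₀ : ℝ) + 1) ^ A * ((d : ℝ) ^ t * (S : ℝ) ^ (-A)) +
      2 * E2 * ((d : ℝ) ^ t * (S : ℝ) ^ (-A)) + 2 * C2 * ((d : ℝ) ^ t * (S : ℝ) ^ (-A)) +
      2 * E2 * ((d : ℝ) ^ t * (S : ℝ) ^ (-A)) +
      Real.sqrt K2 * ((d : ℝ) ^ t * (S : ℝ) ^ (-A)) := by ring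
  have hp : (0 : ℝ) < (d : ℝ) ^ t * (S : ℝ) ^ (-A) := by positivity
  have hp1 : 0 ≤ 2 * ((N₀ : ℝ) + 1) ^ A * ((d : ℝ) ^ t * (S : ℝ) ^ (-A)) := by positivity
  have hp2 : 0 ≤ 2 * E2 * ((d : ℝ) ^ t * (S : ℝ) ^ (-A)) := by positivity
  have hp3 : 0 ≤ 2 * C2 * ((d : ℝ) ^ t * (S : ℝ) ^ (-A)) := by positivity
  have hp5 : 0 ≤ Real.sqrt K2 * ((d : ℝ) ^ t * (S : ℝ) ^ (-A)) := by positivity
  rw [hexpand]
  set s : Finset (List ℕ) := (W d t).filter (fun w => sg w = S) with hs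
  have hcW : ∀ (P : List ℕ → Prop) [DecidablePred P], (((W d t).filter P).card : ℝ) =
      cW d t P := by
    intro P _
    unfold cW
    congr!
  have htriv := oscI_le s (F m r e) hq hQ
  have hscard : (s.card : ℝ) ≤ (d : ℝ) ^ t := by
    rw [hs, hcW]
    exact cW_le_pow d t _
  by_cases hsmall : S ≤ N₀
  · -- small S
    have h2 : (1 : ℝ) ≤ ((N₀ : ℝ) + 1) ^ A * (S : ℝ) ^ (-A) := by
      rw [Real.rpow_neg hS0.le, ← div_eq_mul_inv, one_le_div (by positivity)]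
      refine Real.rpow_le_rpow hS0.le ?_ hA0
      have : (S : ℝ) ≤ N₀ := by exact_mod_cast hsmall
      linarith
    have h3 : (d : ℝ) ^ t ≤ (d : ℝ) ^ t * (((N₀ : ℝ) + 1) ^ A * (S : ℝ) ^ (-A)) :=
      le_mul_of_one_le_right hdt.le h2
    have h4 : 2 * ((N₀ : ℝ) + 1) ^ A * ((d : ℝ) ^ t * (S : ℝ) ^ (-A)) =
        2 * ((d : ℝ) ^ t * (((N₀ : ℝ) + 1) ^ A * (S : ℝ) ^ (-A))) := by ring
    linarith
  push Not at hsmall
  -- the scale
  set Λ : ℝ := (S : ℝ) ^ (A / κ) with hΛ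
  have hΛ1 : 1 ≤ Λ := Real.one_le_rpow hS' hAk
  have hΛ0 : 0 < Λ := by linarith
  have hL1 : 1 ≤ 2 * B * Λ := by
    have h2 : 1 ≤ (B : ℝ) * Λ := one_le_mul_of_one_le_of_one_le hB1' hΛ1
    linarith
  have hmN : (m : ℝ) ^ S = Real.exp (Real.log m * S) := by
    rw [← Real.rpow_natCast, Real.rpow_def_of_pos hm0]
  have hLM0 : 2 * B * Λ < (m : ℝ) ^ S := by
    have h2 := hexp3 S hS
    have h3 : (S : ℝ) ^ (-(A / κ + 1)) = (Λ * S)⁻¹ := by
      rw [Real.rpow_neg hS0.le, Real.rpow_add hS0, Real.rpow_one]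
    rw [h3, Real.exp_neg, ← hmN, ← div_eq_mul_inv, inv_eq_one_div,
      div_le_div_iff₀ (by positivity) (by positivity)] at h2
    have h4 : 2 * B * E3 < S := by
      have : (N₀ : ℝ) < S := by exact_mod_cast hsmall
      linarith
    have h5 : (0 : ℝ) < (m : ℝ) ^ S := by positivity
    by_contra hcon
    push Not at hcon
    have h6 : 2 * B * E3 * (m : ℝ) ^ S < S * (m : ℝ) ^ S := mul_lt_mul_of_pos_right h4 h5
    have h7 : 2 * B * (Λ * S) ≤ 2 * B * (E3 * (m : ℝ) ^ S) :=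
      mul_le_mul_of_nonneg_left (by linarith) (by positivity)
    have h8 : (m : ℝ) ^ S * S ≤ 2 * B * Λ * S := mul_le_mul_of_nonneg_right hcon hS0.le
    linarith
  obtain ⟨M, hM⟩ : ∃ M : ℝ, M = (m : ℝ) ^ S * Q := ⟨_, rfl⟩
  have hMM : ((m ^ S * Q : ℕ) : ℝ) = M := by rw [hM]; push_cast; ring
  have hLM : 2 * B * Λ < M := by
    rw [hM]
    exact hLM0.trans_le (le_mul_of_one_le_right (by positivity) hQ1)
  obtain ⟨j, hj1, hj2⟩ := exists_level hd (by linarith : 0 < 2 * (B : ℝ) * Λ) hLM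
  have hjθ : (j : ℝ) ≤ θ * S := by
    have h2 : (d : ℝ) ^ j < M := by
      have h3 : (0 : ℝ) < (d : ℝ) ^ j := by positivity
      exact (le_mul_of_one_le_left h3.le hL1).trans_lt hj1
    have h3 := Real.log_lt_log (by positivity) h2
    rw [hM, Real.log_mul (by positivity) hQ0.ne', Real.log_pow, Real.log_pow] at h3
    have h4 : Real.log Q ≤ c * S * Real.log m := by
      have h5 := Real.log_le_log hQ0 hQc
      rwa [Real.log_rpow hm0] at h5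
    have h6 : (j : ℝ) * Real.log d ≤ (1 + c) * S * Real.log m := by
      have h7 : (1 + c) * S * Real.log m = S * Real.log m + c * S * Real.log m := by ring
      linarith
    rw [hθ, hθ₀]
    have e1 : Real.log m / Real.log d * (1 + c) * S = ((1 + c) * S * Real.log m) / Real.log d := by ring
    rw [e1, le_div_iff₀ hld]
    exact h6
  rcases le_or_gt t j with htj | htj
  · -- few digits
    have h2 : (s.card : ℝ) ≤ cW d t (fun w => (1 - 4 * c) * (S : ℝ) ≤ (sg w : ℝ)) := by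
      rw [hs, hcW]
      refine cW_mono fun w _ hw => ?_
      rw [hw]
      have : 0 < 4 * c * S := by positivity
      linarith
    have h3 := hch2 S t (by
      have : (t : ℝ) ≤ j := by exact_mod_cast htj
      linarith)
    have h4 := mul_le_mul_of_nonneg_left (hexp2 S hS) hdt.le
    have h5 : 2 * E2 * ((d : ℝ) ^ t * (S : ℝ) ^ (-A)) =
      2 * ((d : ℝ) ^ t * (E2 * (S : ℝ) ^ (-A))) := by ring
    linarith
  -- many digits
  obtain ⟨t', rfl⟩ : ∃ t', t = j + t' := ⟨t - j, by omega⟩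
  set Ty : List ℕ → Prop := fun u => |(Off d m r u : ℝ)| ≤ B * Λ * (d : ℝ) ^ j ∧
    (sg u : ℝ) ≤ (1 - 4 * c) * S with hTy
  have hsplit := oscI_split s (F m r e) (m ^ S) Q (fun w => Ty (w.take j))
  -- atypical words
  have hatyp : oscI (s.filter (fun w => ¬ Ty (w.take j))) (F m r e) (m ^ S) Q ≤
      2 * C2 * ((d : ℝ) ^ (j + t') * (S : ℝ) ^ (-A)) +
        2 * E2 * ((d : ℝ) ^ (j + t') * (S : ℝ) ^ (-A)) := by
    refine (oscI_le _ _ hq hQ).trans ?_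
    have h2 : ((s.filter (fun w => ¬ Ty (w.take j))).card : ℝ) ≤
        cW d (j + t') (fun w => ¬ Ty (w.take j)) := by
      rw [← hcW, hs, Finset.filter_filter]
      exact_mod_cast Finset.card_le_card (fun w hw => by
        rw [Finset.mem_filter] at hw ⊢
        exact ⟨hw.1, hw.2.2⟩)
    have h3 := cW_take d j t' (fun u => ¬ Ty u)
    have h4 : cW d j (fun u => ¬ Ty u) ≤
        cW d j (fun u => B * Λ * (d : ℝ) ^ j < |(Off d m r u : ℝ)|) +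
          cW d j (fun u => (1 - 4 * c) * (S : ℝ) ≤ (sg u : ℝ)) := by
      refine (cW_mono fun u _ hu => ?_).trans (cW_or_le d j _ _)
      by_contra hcon
      push Not at hcon
      exact hu ⟨hcon.1, hcon.2.le⟩
    have h5 := hoff j Λ hΛ1
    have h6 : Λ ^ (-κ) = (S : ℝ) ^ (-A) := by
      rw [hΛ, ← Real.rpow_mul hS0.le]
      congr 1
      field_simp
    have h7 := hch2 S j hjθ
    have h8 := mul_le_mul_of_nonneg_left (hexp2 S hS) (by positivity : (0 : ℝ) ≤ (d : ℝ) ^ j)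
    rw [h6] at h5
    have h9 : cW d j (fun u => ¬ Ty u) * (d : ℝ) ^ t' ≤
        (C2 * (d : ℝ) ^ j * (S : ℝ) ^ (-A) + (d : ℝ) ^ j * (E2 * (S : ℝ) ^ (-A))) *
          (d : ℝ) ^ t' := mul_le_mul_of_nonneg_right (by linarith) (by positivity)
    rw [← h3] at h9
    have h10 : (C2 * (d : ℝ) ^ j * (S : ℝ) ^ (-A) + (d : ℝ) ^ j * (E2 * (S : ℝ) ^ (-A))) *
        (d : ℝ) ^ t' = C2 * ((d : ℝ) ^ (j + t') * (S : ℝ) ^ (-A)) +
        E2 * ((d : ℝ) ^ (j + t') * (S : ℝ) ^ (-A)) := by rw [pow_add]; ring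
    linarith
  -- typical words
  have htyp : oscI (s.filter (fun w => Ty (w.take j))) (F m r e) (m ^ S) Q ≤
      Real.sqrt K2 * ((d : ℝ) ^ (j + t') * (S : ℝ) ^ (-A)) := by
    have hcore := core (d := d) (m := m) (r := r) (e := e) (j := j) (t' := t') (S := S) hq hQ Ty
      (C1 * (d : ℝ) ^ t' * (4 * c * S) ^ (-A')) ?_ ?_ (s.filter (fun w => Ty (w.take j)))
      (fun w => by rw [Finset.mem_filter, hs, Finset.mem_filter, and_assoc])
    · have h2 : 0 ≤ Real.sqrt K2 * ((d : ℝ) ^ (j + t') * (S : ℝ) ^ (-A)) := by positivity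
      refine (sq_le_sq₀ (Finset.sum_nonneg fun _ _ => abs_nonneg _) h2).1 (hcore.trans ?_)
      rw [hMM, mul_pow (Real.sqrt K2), Real.sq_sqrt hK20.le]
      have h4 : (j : ℝ) + 1 ≤ (θ + 1) * S := by
        have h40 : (θ + 1) * (S : ℝ) = θ * S + S := by ring
        linarith
      have h5 : ((4 * c * (S : ℝ)) ^ (-A')) ^ 2 =
          (4 * c) ^ (-(2 * A')) * (S : ℝ) ^ (-(2 * A')) := by
        rw [← Real.mul_rpow (by positivity) hS0.le, ← Real.rpow_natCast, ← Real.rpow_mul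
          (by positivity)]
        congr 1
        push_cast; ring
      have h6 : (S : ℝ) * Λ * (S : ℝ) ^ (-(2 * A')) = ((S : ℝ) ^ (-A)) ^ 2 := by
        rw [hΛ, ← Real.rpow_natCast, ← Real.rpow_mul hS0.le]
        nth_rewrite 1 [← Real.rpow_one (S : ℝ)]
        rw [← Real.rpow_add hS0, ← Real.rpow_add hS0]
        congr 1
        rw [hA']
        push_cast
        ring
      calc ((j : ℝ) + 1) * M * (d : ℝ) ^ j *
            (C1 * (d : ℝ) ^ t' * (4 * c * (S : ℝ)) ^ (-A')) ^ 2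
          ≤ ((θ + 1) * S) * (2 * B * Λ * (d : ℝ) ^ (j + 1)) * (d : ℝ) ^ j *
            (C1 * (d : ℝ) ^ t' * (4 * c * (S : ℝ)) ^ (-A')) ^ 2 := by
            have hM0 : 0 < M := by rw [hM]; positivity
            gcongr
        _ = ((θ + 1) * (2 * B) * d * C1 ^ 2) * (((d : ℝ) ^ j) ^ 2 * ((d : ℝ) ^ t') ^ 2) *
            ((S : ℝ) * Λ * ((4 * c * (S : ℝ)) ^ (-A')) ^ 2) := by ring
        _ = ((θ + 1) * (2 * B) * d * C1 ^ 2 * (4 * c) ^ (-(2 * A'))) *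
            (((d : ℝ) ^ j) ^ 2 * ((d : ℝ) ^ t') ^ 2) *
            ((S : ℝ) * Λ * (S : ℝ) ^ (-(2 * A'))) := by rw [h5]; ring
        _ = K2 * ((d : ℝ) ^ (j + t') * (S : ℝ) ^ (-A)) ^ 2 := by
            rw [h6, ← hK2, pow_add]; ring
    · -- injectivity
      intro u hu u' hu' hTu hTu' hsg hdvd
      have h4 := F_modEq (m := m) (r := r) he u
      have h5 := F_modEq (m := m) (r := r) he u'
      rw [length_of_mem_W hu] at h4
      rw [length_of_mem_W hu'] at h5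
      have h6 : ((m ^ S * Q : ℕ) : ℤ) ∣ e ^ j * (Off d m r u - Off d m r u') := by
        have h7 := dvd_sub (dvd_sub h4 h5) hdvd
        have h8 : (F m r e u + e ^ j * Off d m r u - (F m r e u' + e ^ j * Off d m r u')) -
          (F m r e u - F m r e u') = e ^ j * (Off d m r u - Off d m r u') := by ring
        rwa [h8] at h7
      have h7 : ((m ^ S * Q : ℕ) : ℤ) ∣ Off d m r u - Off d m r u' :=
        ((coprime_e85 he).pow_right).dvd_of_dvd_mul_left h6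
      have h8 : |Off d m r u - Off d m r u'| < ((m ^ S * Q : ℕ) : ℤ) := by
        have h9 : (|Off d m r u - Off d m r u'| : ℝ) < ((m ^ S * Q : ℕ) : ℝ) := by
          rw [hMM]
          refine (abs_sub _ _).trans_lt ?_
          have := hTu.1
          have := hTu'.1
          linarith
        exact_mod_cast h9
      have h9 := Int.eq_zero_of_abs_lt_dvd h7 h8
      exact Off_inj hd hco hr hu hu' hsg (by linarith)
    · -- decay
      intro ξ _ hξ u _ hTu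
      exact inner_boundQ hm2 hC1 hA'0 hfd hS hQ hP hc0 hκF hQF he hTu.2 hξ
  linarith

end Pool.Agent.Helper85.LQ
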