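import Pool.Agent.Helper8.LQ.All
import Pool.Agent.Helper85.LQ.App2

/-!
# Level of distribution of invariant sets for all moduli; almost primes; least elements of residue classes

`T n = n / d` if `d ∣ n`, `T n = (m n - r_j) / d` if `n ≡ j (mod d)`, `1 ≤ j ≤ d - 1`, as in the problem file. A set `G` of integers is invariant if
`n ∈ G ↔ T n ∈ G` for all `n > 0`; such a set has a natural density `D` (`PositiveDensity`). Here `2 ≤ d < m ≤ d ^ (d / (d - 1))` are coprime, `R` is admissible, and the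
modulus `N` is such that each of its prime factors divides `d m` or does not divide `g`, the greatest common divisor of `r_1 (d - 1)` and of all `r_j - r_1` (for `3x + 1`: all `N ≥ 1`).

* Level of distribution: there is `θ > 0` such that, uniformly in the invariant set `G`, all residue classes modulo all these `N ≤ x ^ θ` contain `(D + o(1)) x / N` elements of
  `G ∩ [x, 2x)`.
* Almost primes: if `D > 0` then for large `x` at least `c D x / log x` elements of `G ∩ [x, 2x)` have no prime factor `p < x ^ c₀`, `p ∤ g`. The exceptional set `E(d, m, R)` is finite if and only if for some `B` the number of such `n ∈ [x, 2x)` whose orbit stays above `B` is `o(x / log x)`.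
* Linnik's problem: if `D > 0` then for all large `N` every class modulo `N` contains a positive `n ≤ N ^ L` of `G`. `E(d, m, R)` is finite if and only if for some `B` there are arbitrarily large `N`
  and classes `a` modulo `N` such that the orbits of all positive `n ≤ N ^ L`, `n ≡ a (mod N)`, go `≤ B`.
* The map `3x + 1`.

Proof. `Helper8/LQ`: `FDq`: decay of the exponential sums of the end points of the words at the fractions with denominator `q m ^ N`, `q ≤ exp (κ N)` coprime to `d g`;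
`MIXq`: hence the distribution of the end points modulo `q m ^ (S + k)` is close to the lift of the distribution modulo `m ^ S`; `CFq`: the integers of a class modulo `q m ^ k` are sent by
`T^[t]` to every set in the same proportion; `LDq`, `All`: all moduli. `Helper85/SV`: a lower bound sieve (combinatorial, by blocks of primes); `Helper85/LQ/App`, `App2`: applications. The equivalences use that the set of the integers
whose orbit stays above `B` has positive density if `E` is infinite (`PositiveDensity`).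
-/

set_option autoImplicit false

namespace Pool.Agent.Results.MP_fd8838_nt.LevelOfDistribution

open Pool.Agent.Helper68.Moeller Pool.Agent.Helper8 Pool.Agent.Helper28 Pool.Agent.Helper8.LQ
  Pool.Agent.Helper8.ND Pool.Agent.Helper91 Pool.Agent.Helper85.LQ Filter Topology
open Pool.Agent.Helper8.PW (fdc)

/-- The natural density (in the positive integers). -/
def HasDensity (A : Set ℤ) (D : ℝ) : Prop :=
  Tendsto (fun x : ℝ => ({n : ℤ | n ∈ A ∧ 0 < n ∧ (n : ℝ) ≤ x}.ncard : ℝ) / x) atTop (𝓝 D)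

/-- `G` is invariant under `T`, in the positive integers. -/
def Inv (d m : ℕ) (r : ℤ → ℤ) (G : Set ℤ) : Prop := ∀ n : ℤ, 0 < n → (n ∈ G ↔ T d m r n ∈ G)

/-- The number of the `n ∈ [x, 2x)` with the property `P`. -/
noncomputable def num (P : ℤ → Prop) (x : ℝ) : ℝ := ({n : ℤ | x ≤ n ∧ (n : ℝ) < 2 * x ∧ P n}.ncard : ℝ)

/-- `p` divides `g`, that is, `p` divides `r_1 (d - 1)` and all `r_j - r_1`. -/
def DivG (d : ℕ) (r : ℤ → ℤ) (p : ℕ) : Prop :=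
  (p : ℤ) ∣ r 1 * ((d : ℤ) - 1) ∧ ∀ j : ℤ, 0 < j → j < (d : ℤ) → (p : ℤ) ∣ r j - r 1

/-- The moduli: every prime factor divides `d m` or does not divide `g`. -/
def Modulus (d m : ℕ) (r : ℤ → ℤ) (N : ℕ) : Prop := 0 < N ∧ ∀ p : ℕ, p.Prime → p ∣ N → p ∣ d * m ∨ ¬ DivG d r p

/-- `n` has no prime factor `p < y` which does not divide `g`. -/
def Rough (d : ℕ) (r : ℤ → ℤ) (y : ℝ) (n : ℤ) : Prop := ∀ p : ℕ, p.Prime → (p : ℤ) ∣ n → DivG d r p ∨ y ≤ p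

/-- The orbit of `n` has an element `≤ B`. -/
def Goes (d m : ℕ) (r : ℤ → ℤ) (B : ℝ) (n : ℤ) : Prop := ∃ t : ℕ, ((T d m r)^[t] n : ℝ) ≤ B

/-- The map `(3x + 1) / 2`, `x / 2`. -/
def T3 : ℤ → ℤ := T 2 3 (fun _ => -1)

/-- `n` reaches `1`. -/
def Reach (n : ℤ) : Prop := ∃ t : ℕ, T3^[t] n = 1

/-- `n` has no prime factor `< y`. -/
def RoughN (y : ℝ) (n : ℤ) : Prop := ∀ p : ℕ, p.Prime → (p : ℤ) ∣ n → y ≤ p

private theorem count85 {d m : ℕ} {r : ℤ → ℤ} (h : POSB.Std d m r) : ∃ θ : ℝ, 0 < θ ∧ ∀ ε : ℝ, 0 < ε → ∃ X : ℝ, 1 ≤ X ∧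
    ∀ (G : Set ℤ) (D : ℝ), Inv d m r G → HasDensity G D → ∀ x : ℝ, X ≤ x → ∀ N : ℕ, Modulus d m r N → (N : ℝ) ≤ x ^ θ →
      ∀ b : ℤ, |num (fun n => n ∈ G ∧ n ≡ b [ZMOD N]) x - D * x / N| ≤ ε * x / N := by
  obtain ⟨θ, hθ, hl⟩ := level_allD h (levelF_of h)
  refine ⟨θ, hθ, fun ε hε => ?_⟩
  obtain ⟨X, hX1, hX⟩ := hl 0 ε hε
  refine ⟨X, hX1, fun G D hG hD x hx N hN hNx b => ?_⟩
  have hG' : POSB.Inv d m r G := hG
  have hdens : PL.dens G = D := tendsto_nhds_unique (POSB.tendsto_dens h hG'.tinv) hD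
  have h1 := (hX G hG'.tinv x hx).2 N hN hNx b
  rw [hdens] at h1
  have hx0 : 0 < x := by linarith
  have hN0 : (0 : ℝ) < N := by exact_mod_cast hN.1
  have hset : {n : ℤ | x ≤ n ∧ (n : ℝ) < 2 * x ∧ n ∈ G ∧ n ≡ b [ZMOD N]} =
      {n : ℤ | x ≤ n ∧ (n : ℝ) < 2 * x ∧ (N : ℤ) ∣ n - b ∧ n ∈ G} := by
    ext n
    simp only [Set.mem_ofPred_eq]
    have : n ≡ b [ZMOD (N : ℤ)] ↔ (N : ℤ) ∣ n - b :=
      ⟨fun h => h.symm.dvd, fun h => (Int.modEq_iff_dvd.2 h).symm⟩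
    rw [this]
    tauto
  unfold num
  rw [hset]
  unfold fdc at h1
  obtain ⟨c, hc⟩ : ∃ c : ℝ, c = ({n : ℤ | x ≤ n ∧ (n : ℝ) < 2 * x ∧ (N : ℤ) ∣ n - b ∧ n ∈ G}.ncard : ℝ) := ⟨_, rfl⟩
  rw [← hc] at h1 ⊢
  have e : c - D * x / N = (c * N / x - D) * (x / N) := by
    field_simp
  rw [e, abs_mul, abs_of_pos (div_pos hx0 hN0)]
  calc |c * N / x - D| * (x / N) ≤ ε * (x / N) := mul_le_mul_of_nonneg_right h1 (div_pos hx0 hN0).le
    _ = ε * x / N := by ring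

private theorem pos_density85 {d m : ℕ} {r : ℤ → ℤ} (h : POSB.Std d m r) (hinf : ¬ (E d m r).Finite) (B : ℝ) :
    ∃ η : ℝ, 0 < η ∧ TInv d m r (POSB.Above d m r B) B ∧ PL.dens (POSB.Above d m r B) = η := by
  obtain ⟨β, hβ, hE⟩ := POSB.above h
  have hβ0 : β B ≠ 0 := fun h0 => hinf (hE.2 ⟨_, h0⟩)
  have hβ1 : 0 < β B := by
    refine lt_of_le_of_ne (ge_of_tendsto (hβ B) ?_) hβ0.symm
    filter_upwards [eventually_gt_atTop 0] with x hx
    exact div_nonneg (cN_nonneg _ x) hx.le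
  exact ⟨β B, hβ1, POSB.tinv_Above B, tendsto_nhds_unique (POSB.tendsto_dens h (POSB.tinv_Above B)) (hβ B)⟩

/-- The least element in a residue class. -/
private theorem least85 {d m : ℕ} {r : ℤ → ℤ} (h : POSB.Std d m r) : ∃ L : ℝ, 0 < L ∧ ∀ z D : ℝ, 0 < D → ∃ N₀ : ℕ,
    ∀ G : Set ℤ, TInv d m r G z → PL.dens G = D → ∀ N : ℕ, N₀ ≤ N → Modulus d m r N → ∀ a : ℤ,
      ∃ n ∈ G, 0 < n ∧ (n : ℝ) ≤ (N : ℝ) ^ L ∧ n ≡ a [ZMOD N] := by
  obtain ⟨θ, hθ, hl⟩ := level_allD h (levelF_of h)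
  refine ⟨1 / θ + 1, by positivity, fun z D hD => ?_⟩
  obtain ⟨X₀, hX1, hX₀⟩ := hl z (D / 2) (by positivity)
  have ht : Tendsto (fun q : ℕ => (q : ℝ) ^ (1 / θ)) atTop atTop :=
    (tendsto_rpow_atTop (by positivity)).comp tendsto_natCast_atTop_atTop
  obtain ⟨q₁, hq₁⟩ := eventually_atTop.1 (ht.eventually_ge_atTop X₀)
  refine ⟨max q₁ 2, fun G hG hGD N hN hM a => ?_⟩
  have h1 := hq₁ N ((le_max_left _ _).trans hN)
  have hq2 : 2 ≤ N := (le_max_right _ _).trans hN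
  have hqr : (2 : ℝ) ≤ N := by exact_mod_cast hq2
  obtain ⟨x, hx⟩ : ∃ x : ℝ, x = (N : ℝ) ^ (1 / θ) := ⟨_, rfl⟩
  rw [← hx] at h1
  have hx0 : 0 < x := by rw [hx]; positivity
  have h4 := (hX₀ G hG x h1).2 N hM (by
    rw [hx, ← Real.rpow_mul (by linarith), one_div, inv_mul_cancel₀ hθ.ne', Real.rpow_one]) a
  rw [hGD] at h4
  have h6 : 0 < fdc G N a x := by
    have := (abs_le.1 h4).1
    linarith
  have h7 : ({n : ℤ | x ≤ n ∧ (n : ℝ) < 2 * x ∧ (N : ℤ) ∣ n - a ∧ n ∈ G}).Nonempty := by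
    by_contra hcon
    rw [Set.not_nonempty_iff_eq_empty] at hcon
    unfold fdc at h6
    rw [hcon, Set.ncard_empty, Nat.cast_zero, zero_mul, zero_div] at h6
    exact lt_irrefl _ h6
  obtain ⟨n, hn1, hn2, hn3, hn4⟩ := h7
  refine ⟨n, hn4, ?_, ?_, (Int.modEq_iff_dvd.2 hn3).symm⟩
  · have : (0 : ℝ) < n := hx0.trans_le hn1
    exact_mod_cast this
  · rw [Real.rpow_add (by linarith), Real.rpow_one, ← hx]
    nlinarith

/-- **Level of distribution of invariant sets.** -/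
theorem result :
    (∀ (d m : ℕ), 2 ≤ d → d < m → Nat.Coprime m d →
      (m : ℝ) ≤ (d : ℝ) ^ ((d : ℝ) / ((d : ℝ) - 1)) → ∀ r : ℤ → ℤ, Admissible d m r →
      -- level of distribution
      (∃ θ : ℝ, 0 < θ ∧ ∀ ε : ℝ, 0 < ε → ∃ X : ℝ, ∀ (G : Set ℤ) (D : ℝ), Inv d m r G → HasDensity G D →
        ∀ x : ℝ, X ≤ x → ∀ N : ℕ, Modulus d m r N → (N : ℝ) ≤ x ^ θ → ∀ b : ℤ,
          |num (fun n => n ∈ G ∧ n ≡ b [ZMOD N]) x - D * x / N| ≤ ε * x / N) ∧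
      -- almost primes
      (∃ c₀ c : ℝ, 0 < c₀ ∧ 0 < c ∧
        (∀ D : ℝ, 0 < D → ∃ X : ℝ, ∀ G : Set ℤ, Inv d m r G → HasDensity G D → ∀ x : ℝ, X ≤ x →
          c * D * (x / Real.log x) ≤ num (fun n => n ∈ G ∧ Rough d r (x ^ c₀) n) x) ∧
        ((E d m r).Finite ↔ ∃ B : ℝ, Tendsto (fun x : ℝ => num (fun n => ¬ Goes d m r B n ∧ Rough d r (x ^ c₀) n) x /
          (x / Real.log x)) atTop (𝓝 0))) ∧
      -- the least elements of residue classes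
      (∃ L : ℝ, 0 < L ∧
        (∀ D : ℝ, 0 < D → ∃ N₀ : ℕ, ∀ G : Set ℤ, Inv d m r G → HasDensity G D → ∀ N : ℕ, N₀ ≤ N → Modulus d m r N →
          ∀ a : ℤ, ∃ n ∈ G, 0 < n ∧ (n : ℝ) ≤ (N : ℝ) ^ L ∧ n ≡ a [ZMOD N]) ∧
        ((E d m r).Finite ↔ ∃ B : ℝ, ∀ N₀ : ℕ, ∃ N : ℕ, N₀ ≤ N ∧ Modulus d m r N ∧ ∃ a : ℤ, ∀ n : ℤ, 0 < n →
          (n : ℝ) ≤ (N : ℝ) ^ L → n ≡ a [ZMOD N] → Goes d m r B n))) ∧
    -- the map `3x + 1`
    (∃ p : ℝ, 0 < p ∧ HasDensity {n | Reach n} p ∧ ∃ θ : ℝ, 0 < θ ∧ ∀ ε : ℝ, 0 < ε → ∃ X : ℝ, ∀ x : ℝ, X ≤ x → ∀ N : ℕ, 0 < N →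
      (N : ℝ) ≤ x ^ θ → ∀ b : ℤ, |num (fun n => Reach n ∧ n ≡ b [ZMOD N]) x - p * x / N| ≤ ε * x / N) ∧
    (∃ c₀ c : ℝ, 0 < c₀ ∧ 0 < c ∧
      (∃ X : ℝ, ∀ x : ℝ, X ≤ x → c * (x / Real.log x) ≤ num (fun n => Reach n ∧ RoughN (x ^ c₀) n) x) ∧
      ((∀ n : ℤ, 0 < n → Reach n) ↔ Tendsto (fun x : ℝ => num (fun n => ¬ Reach n ∧ RoughN (x ^ c₀) n) x / (x / Real.log x))
        atTop (𝓝 0))) ∧
    (∃ L : ℝ, 0 < L ∧
      (∃ N₀ : ℕ, ∀ N : ℕ, N₀ ≤ N → ∀ a : ℤ, ∃ n : ℤ, 0 < n ∧ (n : ℝ) ≤ (N : ℝ) ^ L ∧ n ≡ a [ZMOD N] ∧ Reach n) ∧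
      ((∀ n : ℤ, 0 < n → Reach n) ↔ ∀ N₀ : ℕ, ∃ N : ℕ, N₀ ≤ N ∧ ∃ a : ℤ, ∀ n : ℤ, 0 < n → (n : ℝ) ≤ (N : ℝ) ^ L →
        n ≡ a [ZMOD N] → Reach n)) := by
  refine ⟨?_, ?_, ?_, ?_⟩
  · intro d m hd hdm hco hw r hr
    have h : POSB.Std d m r := ⟨hd, hdm, hco, hw, hr⟩
    refine ⟨?_, ?_, ?_⟩
    · obtain ⟨θ, hθ, hc⟩ := count85 h
      refine ⟨θ, hθ, fun ε hε => ?_⟩
      obtain ⟨X, -, hX⟩ := hc ε hε
      exact ⟨X, hX⟩
    · obtain ⟨c₀, c, hc₀, hc, h1, h2⟩ := rough_all h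
      refine ⟨c₀, c, hc₀, hc, fun D hD => h1 D hD, ?_⟩
      rw [h2]
      simp only [Goes, not_exists, not_le]
      exact Iff.rfl
    · obtain ⟨L, hL, hl⟩ := least85 h
      refine ⟨L, hL, ?_, ?_⟩
      · intro D hD
        obtain ⟨N₀, hN₀⟩ := hl 0 D hD
        refine ⟨N₀, fun G hG hGD => ?_⟩
        have hG' : POSB.Inv d m r G := hG
        exact hN₀ G hG'.tinv (tendsto_nhds_unique (POSB.tendsto_dens h hG'.tinv) hGD)
      · constructor
        · intro hfin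
          obtain ⟨B, hB⟩ := PRE.stay_empty h.hd h.hr hfin
          refine ⟨B, fun N₀ => ⟨d ^ N₀, (Nat.lt_pow_self (by have := h.hd; omega)).le, ⟨by positivity, ?_⟩, 0,
            fun n _ _ _ => ?_⟩⟩
          · intro p hp hpN
            exact Or.inl ((hp.dvd_of_dvd_pow hpN).mul_right m)
          · have h6 := hB n
            push Not at h6
            obtain ⟨t, -, ht⟩ := h6 0
            exact ⟨t, ht⟩
        · rintro ⟨B, hB⟩
          by_contra hinf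
          obtain ⟨η, hη, hG, hdens⟩ := pos_density85 h hinf B
          obtain ⟨N₀, hN₀⟩ := hl B η hη
          obtain ⟨N, hN, hM, a, ha⟩ := hB N₀
          obtain ⟨n, hn1, hn2, hn3, hn4⟩ := hN₀ _ hG hdens N hN hM a
          obtain ⟨t, ht⟩ := ha n hn2 hn3 hn4
          exact absurd (hn1 t) (not_lt.2 ht)
  · obtain ⟨p, hp0, hp, -⟩ := POSB.three
    obtain ⟨θ, hθ, hc⟩ := count85 POSB.std_three
    refine ⟨p, hp0, hp, θ, hθ, fun ε hε => ?_⟩
    obtain ⟨X, -, hX⟩ := hc ε hε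
    refine ⟨X, fun x hx N hN hNx b => ?_⟩
    exact hX {n : ℤ | ∃ t : ℕ, (T 2 3 (fun _ => -1))^[t] n = 1} p PW.inv_reach hp x hx N (adN_two (r := fun _ => -1) (Or.inr rfl) hN) hNx b
  · obtain ⟨c₀, c, L, hc₀, hc, hL, h1, h2, h3, h4⟩ := three_all
    exact ⟨c₀, c, hc₀, hc, h1, h2⟩
  · obtain ⟨c₀, c, L, hc₀, hc, hL, h1, h2, h3, h4⟩ := three_all
    have hmod : ∀ (n a : ℤ) (N : ℕ), n ≡ a [ZMOD N] ↔ (N : ℤ) ∣ n - a := fun n a N =>
      ⟨fun h => h.symm.dvd, fun h => (Int.modEq_iff_dvd.2 h).symm⟩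
    simp only [hmod]
    exact ⟨L, hL, h3, h4⟩

end Pool.Agent.Results.MP_fd8838_nt.LevelOfDistribution
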