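import Pool.Agent.Helper85.LQ.App2

/-!
# Almost primes and the exceptional set

`T n = n / d` if `d ∣ n`, `T n = (m n - r_j) / d` if `n ≡ j (mod d)`, `1 ≤ j ≤ d - 1`, as in the problem file; `2 ≤ d < m ≤ d ^ (d / (d - 1))` are coprime, `R` is admissible.
Let `g` be the greatest common divisor of `r_1 (d - 1)` and of all `r_j - r_1`.

**Theorem.** There is `c₀ > 0` with the following property. If for some `B` the number of the `n ∈ [x, 2x)` which have no prime factor `p < x ^ c₀`, `p ∤ g`, and whose whole orbit stays above `B`,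
is `o(x / log x)` along some sequence of `x → ∞`, then `E(d, m, R)` is finite; if `E(d, m, R)` is finite then for some `B` there is no such `n`.

(The number of all the `n ∈ [x, 2x)` without prime factor `p < x ^ c₀`, `p ∤ g`, has the order of magnitude `x / log x`.)

Proof. If `E` is infinite then the set `G` of the integers whose orbit stays above `B` has a positive density (`PositiveDensity`). `Helper8/LQ`: `G` has a level of distribution, with error terms
`x / (N (log x) ^ A)`, for the moduli `N m`, `N ≤ x ^ θ` squarefree and coprime to `d g`. By `T` the class `1` modulo `d` becomes a class modulo `m`. `Helper85/SV`: a lower bound sieve of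
combinatorial type (Bonferroni's inequalities for blocks of primes) for a sequence with a level of distribution.
-/

set_option autoImplicit false

namespace Pool.Agent.Results.MP_fd8838_nt.AlmostPrimes

open Pool.Agent.Helper68.Moeller Pool.Agent.Helper8 Pool.Agent.Helper28 Pool.Agent.Helper8.LQ
  Pool.Agent.Helper8.ND Pool.Agent.Helper91 Pool.Agent.Helper85.LQ Filter Topology

/-- `p` divides `g`, that is, `p` divides `r_1 (d - 1)` and all `r_j - r_1`. -/
def DivG (d : ℕ) (r : ℤ → ℤ) (p : ℕ) : Prop :=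
  (p : ℤ) ∣ r 1 * ((d : ℤ) - 1) ∧ ∀ j : ℤ, 0 < j → j < (d : ℤ) → (p : ℤ) ∣ r j - r 1

/-- `n` has no prime factor `p < y` which does not divide `g`. -/
def Rough (d : ℕ) (r : ℤ → ℤ) (y : ℝ) (n : ℤ) : Prop := ∀ p : ℕ, p.Prime → (p : ℤ) ∣ n → DivG d r p ∨ y ≤ p

/-- The number of the `n ∈ [x, 2x)`, without prime factor `< x ^ c₀` outside `g`, whose whole orbit is above `B`. -/
noncomputable def high (d m : ℕ) (r : ℤ → ℤ) (c₀ B x : ℝ) : ℝ :=
  ({n : ℤ | x ≤ n ∧ (n : ℝ) < 2 * x ∧ Rough d r (x ^ c₀) n ∧ ∀ t : ℕ, B < ((T d m r)^[t] n : ℝ)}.ncard : ℝ)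

/-- **Almost primes and the exceptional set.** -/
theorem result (d m : ℕ) (hd : 2 ≤ d) (hdm : d < m) (hco : Nat.Coprime m d)
    (hw : (m : ℝ) ≤ (d : ℝ) ^ ((d : ℝ) / ((d : ℝ) - 1))) (r : ℤ → ℤ) (hr : Admissible d m r) : ∃ c₀ : ℝ, 0 < c₀ ∧
    ((E d m r).Finite → ∃ B : ℝ, ∀ x : ℝ, high d m r c₀ B x = 0) ∧
    (¬ (E d m r).Finite → ∀ B : ℝ, ∃ c X : ℝ, 0 < c ∧ ∀ x : ℝ, X ≤ x → c * (x / Real.log x) ≤ high d m r c₀ B x) := by
  have h : POSB.Std d m r := ⟨hd, hdm, hco, hw, hr⟩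
  obtain ⟨c₀, c, hc₀, hc, hs⟩ := sieve_inv h.hd h.hdm h.hco h.hr (levelQ_of h) (levelF_of h)
  refine ⟨c₀, hc₀, fun hfin => ?_, fun hinf B => ?_⟩
  · obtain ⟨B, hB⟩ := PRE.stay_empty h.hd h.hr hfin
    refine ⟨B, fun x => ?_⟩
    have h1 : {n : ℤ | x ≤ n ∧ (n : ℝ) < 2 * x ∧ Rough d r (x ^ c₀) n ∧ ∀ t : ℕ, B < ((T d m r)^[t] n : ℝ)} = ∅ := by
      rw [Set.eq_empty_iff_forall_notMem]
      rintro n ⟨-, -, -, h2⟩
      exact hB n ⟨0, fun k _ => h2 k⟩
    unfold high
    rw [h1, Set.ncard_empty, Nat.cast_zero]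
  · obtain ⟨η, hη, hG, hfd⟩ := above_pos h hinf B
    obtain ⟨X, hX⟩ := hs B η hη
    refine ⟨c * η, X, by positivity, fun x hx => (hX _ hG hfd x hx).trans ?_⟩
    unfold high
    rw [Nat.cast_le]
    refine Set.ncard_le_ncard ?_ ?_
    · rintro n ⟨h1, h2, h3, h4⟩
      exact ⟨h1, h2, h4, h3⟩
    · refine (Set.finite_Icc ⌈x⌉ ⌊2 * x⌋).subset ?_
      rintro n ⟨h1, h2, -⟩
      exact ⟨Int.ceil_le.2 h1, Int.le_floor.2 h2.le⟩

end Pool.Agent.Results.MP_fd8838_nt.AlmostPrimes
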